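import Mathlib

/-!
# Absolute continuity and a Hankel-resolvent limit condition: definitions (MP_0d9f0f_an)

`N`, `M` are finite-dimensional complex Hilbert spaces.  A point `exp (i t)` of the unit circle is
represented by `t` in `(0, 2 π]`, and measures on the circle by measures on `(0, 2 π]`.
-/

noncomputable section

open MeasureTheory Set Filter Topology Metric ContinuousLinearMap
open scoped InnerProductSpace Real ENNReal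

namespace Pool.Agent.Y266.AC

/-- The point `exp (i t)` of the unit circle. -/
def ee (t : ℝ) : ℂ := Complex.exp (t * Complex.I)

/-- Lebesgue measure on `(0, 2 π]`, that is `2 π` times normalised Lebesgue measure of the circle. -/
def leb : Measure ℝ := volume.restrict (Ioc 0 (2 * π))

/-- Radial boundary values: `h (r exp (i t)) → g t` as `r → 1-`, for almost every `t`. -/
def IsBdry {G : Type*} [TopologicalSpace G] (h : ℂ → G) (g : ℝ → G) : Prop :=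
  ∀ᵐ t ∂leb, Tendsto (fun r : ℝ => h (r * ee t)) (𝓝[<] 1) (𝓝 (g t))

/-- `f` is a scalar outer function with boundary values `g`:
`f (z) = c exp (∫ (ζ + z) / (ζ - z) log |g (ζ)| dm (ζ))` on the disc, `|c| = 1`, with
`log |g|` integrable on the circle. -/
def ScalarOuter (f : ℂ → ℂ) (g : ℝ → ℂ) : Prop :=
  (∀ᵐ t ∂leb, g t ≠ 0) ∧ Integrable (fun t => Real.log ‖g t‖) leb ∧
    ∃ c : ℂ, ‖c‖ = 1 ∧ ∀ z ∈ ball (0 : ℂ) 1, f z =
      c * Complex.exp ((2 * π : ℂ)⁻¹ * ∫ t, (ee t + z) / (ee t - z) * (Real.log ‖g t‖ : ℂ) ∂leb)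

section Hilbert

variable {E F : Type*} [NormedAddCommGroup E] [InnerProductSpace ℂ E] [CompleteSpace E]
  [NormedAddCommGroup F] [InnerProductSpace ℂ F] [CompleteSpace F]

/-- The class `B(E, F)`: holomorphic functions on the open unit disc with values in the
contractions `E → F`. -/
def ClassB (χ : ℂ → (E →L[ℂ] F)) : Prop :=
  DifferentiableOn ℂ χ (ball 0 1) ∧ ∀ z ∈ ball (0 : ℂ) 1, ‖χ z‖ ≤ 1

/-- The adjoint `S*`. -/
def adj (S : E →L[ℂ] F) : F →L[ℂ] E := adjoint S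

/-- The inverse of a bounded operator (zero if there is none). -/
def inv (T : E →L[ℂ] E) : E →L[ℂ] E := Ring.inverse T

/-- `I - S* S` -/
def defR (S : E →L[ℂ] F) : E →L[ℂ] E := .id ℂ E - (adj S).comp S

/-- `I - S S*` -/
def defL (S : E →L[ℂ] F) : F →L[ℂ] F := .id ℂ F - S.comp (adj S)

/-- `(I + T) (I - T)⁻¹` -/
def cayley (T : E →L[ℂ] E) : E →L[ℂ] E := (.id ℂ E + T).comp (inv (.id ℂ E - T))

/-- `h ∈ B(E, E)` (`E` finite-dimensional) is outer and non-negative at the origin, with boundary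
values `g`: the determinant of `h` is a scalar outer function. -/
def OuterPos (h : ℂ → (E →L[ℂ] E)) (g : ℝ → (E →L[ℂ] E)) : Prop :=
  ClassB h ∧ IsBdry h g ∧ (h 0).IsPositive ∧
    ScalarOuter (fun z => (h z).det) (fun t => (g t).det)

/-- `(D*)⁻¹ X* A`, which is `q₋ P₊⁻¹` when `A = P₊⁻¹`, `D = (P₋⁻¹)*` and `q₋ = P₋ X*`. -/
def symb (X : E →L[ℂ] F) (A : F →L[ℂ] F) (D : E →L[ℂ] E) : F →L[ℂ] E :=
  (inv (adj D)).comp ((adj X).comp A)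

/-- The resolvent `(I - ρ² S* S)⁻¹`. -/
def resolv (S : E →L[ℂ] F) (ρ : ℝ) : E →L[ℂ] E := inv (defR ((ρ : ℂ) • S))

/-- The positive square root of `T⁻¹`. -/
def sqrtInv (T : E →L[ℂ] E) : E →L[ℂ] E := CFC.sqrt (inv T)

/-- For an isometric embedding `ι : F → E`: the compression `ι* T ι` of `T` to `F`. -/
def compr (ι : F →L[ℂ] E) (T : E →L[ℂ] E) : F →L[ℂ] F := (adj ι).comp (T.comp ι)

/-- `T ι (ι* T ι)^{-1/2}` -/
def normal (ι : F →L[ℂ] E) (T : E →L[ℂ] E) : F →L[ℂ] E :=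
  T.comp (ι.comp (sqrtInv (compr ι T)))

end Hilbert

section Main

variable {N M : Type*} [NormedAddCommGroup N] [InnerProductSpace ℂ N] [CompleteSpace N]
  [NormedAddCommGroup M] [InnerProductSpace ℂ M] [CompleteSpace M]

/-- `σ` represents the operator-valued Riesz-Herglotz measure `σ_𝓔` of `[I + χ 𝓔] [I - χ 𝓔]⁻¹`
through its quadratic forms: `σ ξ` is the scalar measure `⟨σ_𝓔 (·) ξ, ξ⟩`. (As `χ (0) = 0`, the
value at the origin is `I` and there is no imaginary constant.) -/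
def IsHerglotz (χ : ℂ → (M →L[ℂ] N)) (ε : ℂ → (N →L[ℂ] M)) (σ : N → Measure ℝ) : Prop :=
  ∀ ξ : N, IsFiniteMeasure (σ ξ) ∧ σ ξ (Ioc 0 (2 * π))ᶜ = 0 ∧
    ∀ z ∈ ball (0 : ℂ) 1,
      ⟪ξ, cayley ((χ z).comp (ε z)) ξ⟫_ℂ = ∫ t, (ee t + z) / (ee t - z) ∂(σ ξ)

/-- The class `B_a(M, N)`: `χ ∈ B(M, N)`, `χ (0) = 0`, and for every `𝓔 ∈ B(N, M)` the
Riesz-Herglotz measure of `[I + χ 𝓔] [I - χ 𝓔]⁻¹` is absolutely continuous. -/
def ClassBa (χ : ℂ → (M →L[ℂ] N)) : Prop :=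
  ClassB χ ∧ χ 0 = 0 ∧
    ∀ ε : ℂ → (N →L[ℂ] M), ClassB ε → ∀ σ : N → Measure ℝ, IsHerglotz χ ε σ →
      ∀ ξ : N, σ ξ ≪ volume

/-- The class `B⁰_Sz(M, N)`: `χ ∈ B(M, N)`, `χ (0) = 0`, and `log det (I - χ* χ)` is integrable on
the circle. -/
def ClassBSz (χ : ℂ → (M →L[ℂ] N)) : Prop :=
  ClassB χ ∧ χ 0 = 0 ∧ ∃ g : ℝ → (M →L[ℂ] N), IsBdry χ g ∧
    (∀ᵐ t ∂leb, (defR (g t)).det ≠ 0) ∧ Integrable (fun t => Real.log ‖(defR (g t)).det‖) leb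

/-- The Hilbert space `ℓ²(N)`. -/
def L2 (N : Type*) [NormedAddCommGroup N] : Type _ := lp (fun _ : ℕ => N) 2

instance : NormedAddCommGroup (L2 N) := lp.normedAddCommGroup (E := fun _ : ℕ => N) (p := 2)
instance : InnerProductSpace ℂ (L2 N) := lp.instInnerProductSpace (G := fun _ : ℕ => N)
instance : CompleteSpace (L2 N) := lp.completeSpace (E := fun _ : ℕ => N) (p := 2)

/-- the `j`-th coordinate of `h ∈ ℓ²(N)` -/
def coord (h : L2 N) (j : ℕ) : N := h.1 j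

/-- The vector `(0, …, 0, ξ, 0, …)` with `ξ` in place `k`. -/
def single (k : ℕ) : N →L[ℂ] L2 N := lp.singleContinuousLinearMap ℂ (fun _ : ℕ => N) 2 k

/-- `Γ : ℓ²(N) → ℓ²(M)` is the Hankel operator with matrix `(f^ (-j-k+1))`, `j, k ≥ 1`
(here indexed from `0`), where `f^ (n) = ∫ f (ζ) ζ⁻ⁿ dm (ζ)`. -/
def IsHankel (f : ℝ → (N →L[ℂ] M)) (Γ : L2 N →L[ℂ] L2 M) : Prop :=
  ∀ (j k : ℕ) (ξ : N), coord (Γ (single k ξ)) j =
    (2 * π : ℂ)⁻¹ • ∫ t, (ee t) ^ (j + k + 1) • f t ξ ∂leb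

/-- The objects attached to `χ ∈ B⁰_Sz(M, N)`: `χb` are the boundary values of `χ`; `a = P₊⁻¹` is
outer with `I - χ χ* = P₊⁻¹ (P₊⁻¹)*` and boundary values `ab`; `d (z) = (P₋⁻¹ (1 / conj z))*` is
outer with `I - χ* χ = P₋⁻¹ (P₋⁻¹)*` and boundary values `db = (P₋⁻¹)*`; `Γ` is the Hankel
operator of `f₀ = q₋ P₊⁻¹`, `q₋ = P₋ χ*`. (`I - (I - T T*) = T T*`.) -/
def IsAssoc (χ : ℂ → (M →L[ℂ] N)) (χb : ℝ → (M →L[ℂ] N))
    (a : ℂ → (N →L[ℂ] N)) (ab : ℝ → (N →L[ℂ] N)) (d : ℂ → (M →L[ℂ] M)) (db : ℝ → (M →L[ℂ] M))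
    (Γ : L2 N →L[ℂ] L2 M) : Prop :=
  IsBdry χ χb ∧ OuterPos a ab ∧ OuterPos d db ∧
    (∀ᵐ t ∂leb, defL (χb t) = (ab t).comp (adj (ab t)) ∧
      defR (χb t) = (adj (db t)).comp (db t)) ∧
    IsHankel (fun t => symb (χb t) (ab t) (db t)) Γ

/-- Evaluation `h₊ (z) = ∑ ξ_j z ^ (j - 1)`, `j ≥ 1` (indexed from `0`). -/
def plus (h : L2 N) (z : ℂ) : N := ∑' j : ℕ, z ^ j • coord h j

/-- `P₊ (z, ρ) ξ = [(I - ρ² Γ* Γ)⁻¹ N^{1/2} (ρ) e_ξ]₊ (z)`, with `N^{1/2} (ρ)` the positive square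
root of `[P_{N₀} (I - ρ² Γ* Γ)⁻¹ | N₀]⁻¹`. -/
def Pplus (Γ : L2 N →L[ℂ] L2 M) (z : ℂ) (ρ : ℝ) (ξ : N) : N :=
  plus (normal (single 0) (resolv Γ ρ) ξ) z

/-- `q₊ (z, ρ) η = ρ z [Γ* (I - ρ² Γ Γ*)⁻¹ M^{1/2} (ρ) e_η]₊ (z)`, with `M^{1/2} (ρ)` the positive
square root of `[P_{M₀} (I - ρ² Γ Γ*)⁻¹ | M₀]⁻¹`. -/
def qplus (Γ : L2 N →L[ℂ] L2 M) (z : ℂ) (ρ : ℝ) (η : M) : N :=
  ((ρ : ℂ) * z) • plus (adj Γ (normal (single 0) (resolv (adj Γ) ρ) η)) z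

/-- **Condition (4)** for `χ`: `P₊⁻¹ (z, ρ) q₊ (z, ρ) → χ (z)` as `ρ → 1-` for every `z` in the
disc. Here `P₊⁻¹ (z, ρ)` is the inverse map of `P₊ (z, ρ) : N → N`. -/
def Cond4 (χ : ℂ → (M →L[ℂ] N)) : Prop :=
  ∀ χb a ab d db Γ, IsAssoc χ χb a ab d db Γ → ∀ z ∈ ball (0 : ℂ) 1, ∀ η : M,
    Tendsto (fun ρ : ℝ => Function.invFun (Pplus Γ z ρ) (qplus Γ z ρ η)) (𝓝[<] 1) (𝓝 (χ z η))

end Main

end Pool.Agent.Y266.AC
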