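import Mathlib

/-!
# Energy identity for `-y'' = w y` and the entire functions of the counterexample
-/

noncomputable section

open Complex Set Filter Topology Metric

namespace Pool.Agent.Y266.AC

/-- energy derivative -/
lemma energy_deriv (r α : ℂ) (hr : r ≠ 0) (t : ℝ) :
    HasDerivAt (fun t : ℝ => ((cos (r * t) + α * (sin (r * t) / r)) *
      (starRingEnd ℂ) (-(r * sin (r * t)) + α * cos (r * t))).im)
      ((r ^ 2).im * ‖cos (r * t) + α * (sin (r * t) / r)‖ ^ 2) t := by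
  have hlin : HasDerivAt (fun z : ℂ => r * z) r (t : ℂ) := by
    simpa using (hasDerivAt_id (t : ℂ)).const_mul r
  have hcos : HasDerivAt (fun t : ℝ => cos (r * t)) (-sin (r * t) * r) t :=
    hlin.ccos.comp_ofReal
  have hsin : HasDerivAt (fun t : ℝ => sin (r * t)) (cos (r * t) * r) t :=
    hlin.csin.comp_ofReal
  have hy : HasDerivAt (fun t : ℝ => cos (r * t) + α * (sin (r * t) / r))
      (-(r * sin (r * t)) + α * cos (r * t)) t := by
    have h := hcos.add ((hsin.div_const r).const_mul α)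
    refine h.congr_deriv ?_
    field_simp
  have hy' : HasDerivAt (fun t : ℝ => -(r * sin (r * t)) + α * cos (r * t))
      (-(r ^ 2) * (cos (r * t) + α * (sin (r * t) / r))) t := by
    have h := (hsin.const_mul r).neg.add (hcos.const_mul α)
    refine h.congr_deriv ?_
    field_simp
    ring
  have hconj : HasDerivAt (fun t : ℝ => (starRingEnd ℂ) (-(r * sin (r * t)) + α * cos (r * t)))
      ((starRingEnd ℂ) (-(r ^ 2) * (cos (r * t) + α * (sin (r * t) / r)))) t :=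
    (Complex.conjCLE.toContinuousLinearMap.hasFDerivAt.comp_hasDerivAt t hy')
  have hprod := hy.mul hconj
  have him := (Complex.imCLM.hasFDerivAt.comp_hasDerivAt t hprod)
  refine him.congr_deriv ?_
  generalize cos (r * t) + α * (sin (r * t) / r) = y
  generalize (-(r * sin (r * t)) + α * cos (r * t)) = y'
  simp only [Complex.imCLM_apply, map_mul, map_neg, add_im, mul_im, mul_re, neg_re, neg_im,
    conj_re, conj_im, Complex.sq_norm, Complex.normSq_apply]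
  ring

lemma energy_le (r α : ℂ) (hr : r ≠ 0) (hw : 0 ≤ (r ^ 2).im) :
    -α.im ≤ ((cos r + α * (sin r / r)) *
      (starRingEnd ℂ) (-(r * sin r) + α * cos r)).im := by
  have hmono : Monotone (fun t : ℝ => ((cos (r * t) + α * (sin (r * t) / r)) *
      (starRingEnd ℂ) (-(r * sin (r * t)) + α * cos (r * t))).im) := by
    apply monotone_of_deriv_nonneg
    · intro t
      exact (energy_deriv r α hr t).differentiableAt
    · intro t
      rw [(energy_deriv r α hr t).deriv]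
      positivity
  have h := hmono (zero_le_one' ℝ)
  simpa using h

lemma energy_eq (r α : ℂ) (hr : r ≠ 0) (hw : (r ^ 2).im = 0) :
    ((cos r + α * (sin r / r)) *
      (starRingEnd ℂ) (-(r * sin r) + α * cos r)).im = -α.im := by
  have hconst := is_const_of_deriv_eq_zero (f := fun t : ℝ =>
      ((cos (r * t) + α * (sin (r * t) / r)) *
      (starRingEnd ℂ) (-(r * sin (r * t)) + α * cos (r * t))).im)
      (fun t => (energy_deriv r α hr t).differentiableAt)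
      (fun t => by rw [(energy_deriv r α hr t).deriv, hw, zero_mul]) 1 0
  simpa using hconst

/-- `D = cos r - (i/2) (r² + 1) sin r / r` -/
def fD (r : ℂ) : ℂ := cos r - (I / 2) * (r ^ 2 + 1) * (sin r / r)

/-- `C = (i/2) (r² - 1) sin r / r` -/
def fC (r : ℂ) : ℂ := (I / 2) * (r ^ 2 - 1) * (sin r / r)

/-- `D' = cos r + (i/2) (r² + 1) sin r / r` -/
def fD' (r : ℂ) : ℂ := cos r + (I / 2) * (r ^ 2 + 1) * (sin r / r)

lemma normSq_sub_aux (y y' : ℂ) :
    ‖(1 / 2 : ℂ) * (y + I * y')‖ ^ 2 - ‖(1 / 2 : ℂ) * (y - I * y')‖ ^ 2 =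
      (y * (starRingEnd ℂ) y').im := by
  simp only [Complex.sq_norm, Complex.normSq_apply, mul_re, mul_im, add_re, add_im, sub_re,
    sub_im, I_re, I_im, conj_re, conj_im]
  norm_num
  ring

lemma fD_eq (r : ℂ) (hr : r ≠ 0) : fD r = (1 / 2 : ℂ) * ((cos r + (-I) * (sin r / r)) +
    I * (-(r * sin r) + (-I) * cos r)) := by
  unfold fD
  field_simp
  ring_nf
  simp only [I_sq]
  ring

lemma fC_eq (r : ℂ) (hr : r ≠ 0) : fC r = (1 / 2 : ℂ) * ((cos r + (-I) * (sin r / r)) -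
    I * (-(r * sin r) + (-I) * cos r)) := by
  unfold fC
  field_simp
  ring_nf
  simp only [I_sq]
  ring

lemma fD'_eq (r : ℂ) (hr : r ≠ 0) : fD' r = (1 / 2 : ℂ) * ((cos r + I * (sin r / r)) -
    I * (-(r * sin r) + I * cos r)) := by
  unfold fD'
  field_simp
  ring_nf
  simp only [I_sq]
  ring

lemma fC'_eq (r : ℂ) (hr : r ≠ 0) : -fC r = (1 / 2 : ℂ) * ((cos r + I * (sin r / r)) +
    I * (-(r * sin r) + I * cos r)) := by
  unfold fC
  field_simp
  ring_nf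
  simp only [I_sq]
  ring

/-- `|D|² - |C|² ≥ 1` in the closed upper half plane of `w = r²` -/
lemma one_le_sub (r : ℂ) (hr : r ≠ 0) (hw : 0 ≤ (r ^ 2).im) :
    1 ≤ ‖fD r‖ ^ 2 - ‖fC r‖ ^ 2 := by
  rw [fD_eq r hr, fC_eq r hr, normSq_sub_aux]
  have h := energy_le r (-I) hr hw
  simpa using h

lemma sub_eq_one (r : ℂ) (hr : r ≠ 0) (hw : (r ^ 2).im = 0) :
    ‖fD r‖ ^ 2 - ‖fC r‖ ^ 2 = 1 := by
  rw [fD_eq r hr, fC_eq r hr, normSq_sub_aux]
  have h := energy_eq r (-I) hr hw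
  simpa using h

lemma fD'_le (r : ℂ) (hr : r ≠ 0) (hw : 0 ≤ (r ^ 2).im) :
    ‖fD' r‖ ≤ ‖fD r‖ := by
  have h1 : -1 ≤ ‖fC r‖ ^ 2 - ‖fD' r‖ ^ 2 := by
    rw [← norm_neg (fC r), fD'_eq r hr, fC'_eq r hr, normSq_sub_aux]
    have h := energy_le r I hr hw
    simpa using h
  have h2 := one_le_sub r hr hw
  exact le_of_sq_le_sq (by linarith) (norm_nonneg _)

lemma fC_le (r : ℂ) (hr : r ≠ 0) (hw : 0 ≤ (r ^ 2).im) :
    ‖fC r‖ ≤ ‖fD r‖ := by
  have h2 := one_le_sub r hr hw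
  exact le_of_sq_le_sq (by linarith) (norm_nonneg _)

lemma conj_cos_of_real {r : ℂ} (hw : (r ^ 2).im = 0) : (starRingEnd ℂ) (cos r) = cos r := by
  have h : (starRingEnd ℂ r) ^ 2 = r ^ 2 := by
    rw [← map_pow]
    exact Complex.conj_eq_iff_im.2 hw
  rw [← Complex.cos_conj]
  rcases sq_eq_sq_iff_eq_or_eq_neg.1 h with h | h
  · rw [h]
  · rw [h, Complex.cos_neg]

lemma conj_sinc_of_real {r : ℂ} (hw : (r ^ 2).im = 0) :
    (starRingEnd ℂ) (sin r / r) = sin r / r := by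
  have h : (starRingEnd ℂ r) ^ 2 = r ^ 2 := by
    rw [← map_pow]
    exact Complex.conj_eq_iff_im.2 hw
  rw [map_div₀, ← Complex.sin_conj]
  rcases sq_eq_sq_iff_eq_or_eq_neg.1 h with h | h
  · rw [h]
  · rw [h, Complex.sin_neg, neg_div_neg_eq]

lemma conj_fD {r : ℂ} (hw : (r ^ 2).im = 0) : (starRingEnd ℂ) (fD r) = fD' r := by
  have h2 : (starRingEnd ℂ) (r ^ 2) = r ^ 2 := Complex.conj_eq_iff_im.2 hw
  unfold fD fD'
  rw [map_sub, map_mul, map_mul, conj_cos_of_real hw, conj_sinc_of_real hw, map_add, map_one, h2,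
    map_div₀, conj_I, map_ofNat]
  ring

lemma conj_fC {r : ℂ} (hw : (r ^ 2).im = 0) : (starRingEnd ℂ) (fC r) = -fC r := by
  have h2 : (starRingEnd ℂ) (r ^ 2) = r ^ 2 := Complex.conj_eq_iff_im.2 hw
  unfold fC
  rw [map_mul, map_mul, conj_sinc_of_real hw, map_sub, map_one, h2,
    map_div₀, conj_I, map_ofNat]
  ring

lemma norm_cos_le (r : ℂ) : ‖cos r‖ ≤ Real.exp ‖r‖ := by
  rw [Complex.cos]
  have h1 : ‖exp (r * I)‖ ≤ Real.exp ‖r‖ := by
    refine (Complex.norm_exp_le_exp_norm _).trans ?_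
    simp
  have h2 : ‖exp (-r * I)‖ ≤ Real.exp ‖r‖ := by
    refine (Complex.norm_exp_le_exp_norm _).trans ?_
    simp
  rw [norm_div, Complex.norm_ofNat]
  have h3 := norm_add_le (exp (r * I)) (exp (-r * I))
  rw [div_le_iff₀ (by norm_num)]
  linarith

lemma norm_sin_le (r : ℂ) : ‖sin r‖ ≤ Real.exp ‖r‖ * ‖r‖ := by
  have hd : ∀ x ∈ closedBall (0 : ℂ) ‖r‖, HasDerivWithinAt sin (cos x) (closedBall (0 : ℂ) ‖r‖) x :=
    fun x _ => (Complex.hasDerivAt_sin x).hasDerivWithinAt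
  have hb : ∀ x ∈ closedBall (0 : ℂ) ‖r‖, ‖cos x‖ ≤ Real.exp ‖r‖ := by
    intro x hx
    refine (norm_cos_le x).trans ?_
    apply Real.exp_le_exp.2
    simpa using hx
  have h := (convex_closedBall (0 : ℂ) ‖r‖).norm_image_sub_le_of_norm_hasDerivWithin_le hd hb
    (x := 0) (y := r) (by simp) (by simp)
  simpa using h

lemma norm_sinc_le (r : ℂ) (hr : r ≠ 0) : ‖sin r / r‖ ≤ Real.exp ‖r‖ := by
  rw [norm_div, div_le_iff₀ (norm_pos_iff.2 hr)]
  exact norm_sin_le r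

lemma norm_fD_le (r : ℂ) (hr : r ≠ 0) : ‖fD r‖ ≤ 2 * Real.exp (2 * ‖r‖) := by
  have h0 : (0 : ℝ) ≤ ‖r‖ := norm_nonneg r
  have h1 := norm_cos_le r
  have h2 := norm_sinc_le r hr
  have h3 : ‖fD r‖ ≤ ‖cos r‖ + (1 / 2) * (‖r‖ ^ 2 + 1) * ‖sin r / r‖ := by
    unfold fD
    refine (norm_sub_le _ _).trans ?_
    rw [norm_mul, norm_mul, norm_div, Complex.norm_I, Complex.norm_ofNat]
    have h4 : ‖r ^ 2 + 1‖ ≤ ‖r‖ ^ 2 + 1 := by
      refine (norm_add_le _ _).trans ?_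
      simp
    have h5 := norm_nonneg (sin r / r)
    gcongr
  have h6 : 1 + ‖r‖ + ‖r‖ ^ 2 / 2 ≤ Real.exp ‖r‖ := Real.quadratic_le_exp_of_nonneg h0
  have h7 : Real.exp (2 * ‖r‖) = Real.exp ‖r‖ * Real.exp ‖r‖ := by
    rw [← Real.exp_add]; ring_nf
  rw [h7]
  have h8 := Real.exp_pos ‖r‖
  calc ‖fD r‖ ≤ ‖cos r‖ + (1 / 2) * (‖r‖ ^ 2 + 1) * ‖sin r / r‖ := h3
    _ ≤ Real.exp ‖r‖ + (1 / 2) * (‖r‖ ^ 2 + 1) * Real.exp ‖r‖ := by gcongr
    _ = Real.exp ‖r‖ * (1 + (1 / 2) * (‖r‖ ^ 2 + 1)) := by ring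
    _ ≤ Real.exp ‖r‖ * (2 * Real.exp ‖r‖) := by
        apply mul_le_mul_of_nonneg_left _ h8.le
        nlinarith
    _ = _ := by ring

end Pool.Agent.Y266.AC
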