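import Mathlib
import Pool.Agent.Y266.AC.Defs
import Pool.Agent.Y266.AC.Energy

/-!
# The scalar functions of the counterexample on the unit disc
-/

noncomputable section

open Complex Set Filter Topology Metric
open scoped Real

namespace Pool.Agent.Y266.AC

/-- the map of the disc onto the right half plane -/
def pp (z : ℂ) : ℂ := (1 + z) / (1 - z)

/-- `r = √(i p)` -/
def rr (z : ℂ) : ℂ := exp ((π / 4 : ℝ) * I) * (pp z) ^ (((2 : ℕ) : ℂ)⁻¹)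

/-- the punctured closed disc -/
def dd : Set ℂ := {z : ℂ | ‖z‖ ≤ 1 ∧ z ≠ 1 ∧ z ≠ -1}

lemma ball_sub_dd : ball (0 : ℂ) 1 ⊆ dd := by
  intro z hz
  rw [mem_ball_zero_iff] at hz
  refine ⟨hz.le, ?_, ?_⟩
  · rintro rfl; simp at hz
  · rintro rfl; simp at hz

lemma pp_re (z : ℂ) : (pp z).re = (1 - ‖z‖ ^ 2) / ‖1 - z‖ ^ 2 := by
  unfold pp
  rw [div_re, ← normSq_eq_norm_sq (1 - z), ← normSq_eq_norm_sq z, ← add_div]
  congr 1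
  simp only [add_re, one_re, sub_re, add_im, one_im, sub_im, normSq_apply]
  ring

lemma pp_re_nonneg {z : ℂ} (hz : ‖z‖ ≤ 1) : 0 ≤ (pp z).re := by
  rw [pp_re]
  have : ‖z‖ ^ 2 ≤ 1 := by
    have := norm_nonneg z
    nlinarith
  exact div_nonneg (by linarith) (by positivity)

lemma pp_ne_zero {z : ℂ} (hz : z ∈ dd) : pp z ≠ 0 := by
  unfold pp
  refine div_ne_zero ?_ ?_
  · intro h
    exact hz.2.2 (eq_neg_of_add_eq_zero_right h)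
  · exact sub_ne_zero.2 (Ne.symm hz.2.1)

lemma pp_mem {z : ℂ} (hz : z ∈ dd) : pp z ∈ slitPlane := by
  rw [mem_slitPlane_iff]
  rcases (pp_re_nonneg hz.1).lt_or_eq with h | h
  · exact Or.inl h
  · right
    intro h2
    exact pp_ne_zero hz (Complex.ext h.symm h2)

lemma rr_sq (z : ℂ) : (rr z) ^ 2 = I * pp z := by
  unfold rr
  rw [mul_pow, cpow_nat_inv_pow _ two_ne_zero, ← exp_nat_mul]
  congr 1
  calc exp (((2 : ℕ) : ℂ) * ((π / 4 : ℝ) * I)) = exp (π / 2 * I) := by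
        congr 1
        push_cast
        ring
    _ = I := exp_pi_div_two_mul_I

lemma rr_ne_zero {z : ℂ} (hz : z ∈ dd) : rr z ≠ 0 := by
  intro h
  have h2 := rr_sq z
  rw [h] at h2
  have h3 : I * pp z = 0 := by rw [← h2]; simp
  rcases mul_eq_zero.1 h3 with h4 | h4
  · exact I_ne_zero h4
  · exact pp_ne_zero hz h4

lemma rr_sq_im (z : ℂ) : ((rr z) ^ 2).im = (pp z).re := by
  rw [rr_sq]; simp

lemma rr_norm_sq (z : ℂ) : ‖rr z‖ ^ 2 = ‖pp z‖ := by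
  rw [← norm_pow, rr_sq]; simp

lemma rr_norm_le {z : ℂ} (hz : ‖z‖ ≤ 1) : ‖rr z‖ ≤ 2 / √‖1 - z‖ := by
  have h1 : ‖rr z‖ ^ 2 ≤ (2 / √‖1 - z‖) ^ 2 := by
    rw [rr_norm_sq, div_pow, Real.sq_sqrt (norm_nonneg _)]
    unfold pp
    rw [norm_div]
    have : ‖1 + z‖ ≤ 2 := by
      refine (norm_add_le _ _).trans ?_
      rw [norm_one]; linarith
    gcongr
    linarith
  exact le_of_sq_le_sq h1 (by positivity)

lemma rr_diff {z : ℂ} (hz : z ∈ dd) : DifferentiableAt ℂ rr z := by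
  unfold rr
  have h1 : DifferentiableAt ℂ pp z := by
    unfold pp
    have : (1 : ℂ) - z ≠ 0 := sub_ne_zero.2 (Ne.symm hz.2.1)
    fun_prop (disch := assumption)
  exact (h1.cpow_const (pp_mem hz)).const_mul _

lemma fD_diff {z : ℂ} (hz : z ∈ dd) : DifferentiableAt ℂ (fun z => fD (rr z)) z := by
  have h1 := rr_diff hz
  have h2 := rr_ne_zero hz
  unfold fD
  exact (h1.ccos).sub ((((h1.pow 2).add_const _).const_mul _).mul (h1.csin.div h1 h2))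

lemma fC_diff {z : ℂ} (hz : z ∈ dd) : DifferentiableAt ℂ (fun z => fC (rr z)) z := by
  have h1 := rr_diff hz
  have h2 := rr_ne_zero hz
  unfold fC
  exact ((((h1.pow 2).sub_const _).const_mul _).mul (h1.csin.div h1 h2))

lemma fD'_diff {z : ℂ} (hz : z ∈ dd) : DifferentiableAt ℂ (fun z => fD' (rr z)) z := by
  have h1 := rr_diff hz
  have h2 := rr_ne_zero hz
  unfold fD'
  exact (h1.ccos).add ((((h1.pow 2).add_const _).const_mul _).mul (h1.csin.div h1 h2))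

lemma dd_zero : (0 : ℂ) ∈ dd := ball_sub_dd (by simp)

/-- constants -/
def D0 : ℂ := fD (rr 0)
/-- constants -/
def C0 : ℂ := fC (rr 0)

lemma D0C0 : 1 ≤ ‖D0‖ ^ 2 - ‖C0‖ ^ 2 :=
  one_le_sub _ (rr_ne_zero dd_zero) (by rw [rr_sq_im]; exact pp_re_nonneg (by simp))

/-- constants -/
def kap : ℝ := √(‖D0‖ ^ 2 - ‖C0‖ ^ 2)

lemma kap_sq : kap ^ 2 = ‖D0‖ ^ 2 - ‖C0‖ ^ 2 := Real.sq_sqrt (by linarith [D0C0])

lemma kap_ge : 1 ≤ kap := by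
  have h := kap_sq
  have h2 := D0C0
  have h3 : 0 ≤ kap := Real.sqrt_nonneg _
  nlinarith

/-- denominator -/
def QQ (z : ℂ) : ℂ := (starRingEnd ℂ) D0 * fD (rr z) - (starRingEnd ℂ) C0 * fC (rr z)
/-- numerator -/
def PP (z : ℂ) : ℂ := D0 * fC (rr z) - C0 * fD (rr z)
/-- reflected numerator -/
def PS (z : ℂ) : ℂ := -((starRingEnd ℂ) D0 * fC (rr z)) - (starRingEnd ℂ) C0 * fD' (rr z)

lemma normSq_identity (a b c d : ℂ) :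
    ‖(starRingEnd ℂ) a * c - (starRingEnd ℂ) b * d‖ ^ 2 - ‖a * d - b * c‖ ^ 2 =
      (‖a‖ ^ 2 - ‖b‖ ^ 2) * (‖c‖ ^ 2 - ‖d‖ ^ 2) := by
  simp only [Complex.sq_norm, Complex.normSq_apply, mul_re, mul_im, sub_re, sub_im,
    conj_re, conj_im]
  ring

lemma QP_identity (z : ℂ) : ‖QQ z‖ ^ 2 - ‖PP z‖ ^ 2 =
    kap ^ 2 * (‖fD (rr z)‖ ^ 2 - ‖fC (rr z)‖ ^ 2) := by
  rw [kap_sq]
  exact normSq_identity _ _ _ _

lemma DC_ge {z : ℂ} (hz : z ∈ dd) : 1 ≤ ‖fD (rr z)‖ ^ 2 - ‖fC (rr z)‖ ^ 2 :=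
  one_le_sub _ (rr_ne_zero hz) (by rw [rr_sq_im]; exact pp_re_nonneg hz.1)

lemma QP_ge {z : ℂ} (hz : z ∈ dd) : kap ^ 2 ≤ ‖QQ z‖ ^ 2 - ‖PP z‖ ^ 2 := by
  rw [QP_identity]
  have h := DC_ge hz
  nlinarith [sq_nonneg kap]

lemma kap_le_QQ {z : ℂ} (hz : z ∈ dd) : kap ≤ ‖QQ z‖ := by
  have h := QP_ge hz
  exact le_of_sq_le_sq (by nlinarith [sq_nonneg ‖PP z‖]) (norm_nonneg _)

lemma QQ_ne {z : ℂ} (hz : z ∈ dd) : QQ z ≠ 0 := by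
  have h := kap_le_QQ hz
  have h2 := kap_ge
  intro h3
  rw [h3, norm_zero] at h
  linarith

lemma C0_lt_D0 : ‖C0‖ < ‖D0‖ := by
  have h := D0C0
  exact lt_of_pow_lt_pow_left₀ 2 (norm_nonneg _) (by linarith)

lemma D0_ge : 1 ≤ ‖D0‖ := by
  have h := D0C0
  nlinarith [norm_nonneg D0, sq_nonneg ‖C0‖]

lemma QQ_le {z : ℂ} (hz : z ∈ dd) : ‖QQ z‖ ≤ 2 * ‖D0‖ * ‖fD (rr z)‖ := by
  have h1 : ‖fC (rr z)‖ ≤ ‖fD (rr z)‖ :=
    fC_le _ (rr_ne_zero hz) (by rw [rr_sq_im]; exact pp_re_nonneg hz.1)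
  have h2 := C0_lt_D0.le
  unfold QQ
  refine (norm_sub_le _ _).trans ?_
  rw [norm_mul, norm_mul, RCLike.norm_conj, RCLike.norm_conj]
  have h3 : ‖C0‖ * ‖fC (rr z)‖ ≤ ‖D0‖ * ‖fD (rr z)‖ := by gcongr
  linarith

lemma QQ_ge {z : ℂ} (hz : z ∈ dd) : (‖D0‖ - ‖C0‖) * ‖fD (rr z)‖ ≤ ‖QQ z‖ := by
  have h1 : ‖fC (rr z)‖ ≤ ‖fD (rr z)‖ :=
    fC_le _ (rr_ne_zero hz) (by rw [rr_sq_im]; exact pp_re_nonneg hz.1)
  have h2 := C0_lt_D0.le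
  unfold QQ
  have h4 := norm_sub_norm_le ((starRingEnd ℂ) D0 * fD (rr z)) ((starRingEnd ℂ) C0 * fC (rr z))
  rw [norm_mul, norm_mul, RCLike.norm_conj, RCLike.norm_conj] at h4
  have h3 : ‖C0‖ * ‖fC (rr z)‖ ≤ ‖C0‖ * ‖fD (rr z)‖ := by gcongr
  nlinarith

lemma PS_le {z : ℂ} (hz : z ∈ dd) : ‖PS z‖ ≤ 2 * ‖D0‖ * ‖fD (rr z)‖ := by
  have him : 0 ≤ ((rr z) ^ 2).im := by rw [rr_sq_im]; exact pp_re_nonneg hz.1
  have h1 : ‖fC (rr z)‖ ≤ ‖fD (rr z)‖ := fC_le _ (rr_ne_zero hz) him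
  have h1' : ‖fD' (rr z)‖ ≤ ‖fD (rr z)‖ := fD'_le _ (rr_ne_zero hz) him
  have h2 := C0_lt_D0.le
  unfold PS
  refine (norm_sub_le _ _).trans ?_
  rw [norm_neg, norm_mul, norm_mul, RCLike.norm_conj, RCLike.norm_conj]
  have h3 : ‖C0‖ * ‖fD' (rr z)‖ ≤ ‖D0‖ * ‖fD (rr z)‖ := by gcongr
  have h4 : ‖D0‖ * ‖fC (rr z)‖ ≤ ‖D0‖ * ‖fD (rr z)‖ := by gcongr
  linarith

/-- the scalar function `χ` -/
def xx (z : ℂ) : ℂ := PP z / QQ z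
/-- the scalar function `a` -/
def AA (z : ℂ) : ℂ := kap / QQ z
/-- the analytic function with boundary values `f₀` -/
def FF (z : ℂ) : ℂ := PS z / QQ z

lemma QQ_diff {z : ℂ} (hz : z ∈ dd) : DifferentiableAt ℂ QQ z :=
  ((fD_diff hz).const_mul _).sub ((fC_diff hz).const_mul _)
lemma PP_diff {z : ℂ} (hz : z ∈ dd) : DifferentiableAt ℂ PP z :=
  ((fC_diff hz).const_mul _).sub ((fD_diff hz).const_mul _)
lemma PS_diff {z : ℂ} (hz : z ∈ dd) : DifferentiableAt ℂ PS z :=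
  ((fC_diff hz).const_mul _).neg.sub ((fD'_diff hz).const_mul _)
lemma xx_diff {z : ℂ} (hz : z ∈ dd) : DifferentiableAt ℂ xx z :=
  (PP_diff hz).div (QQ_diff hz) (QQ_ne hz)
lemma AA_diff {z : ℂ} (hz : z ∈ dd) : DifferentiableAt ℂ AA z :=
  (differentiableAt_const _).div (QQ_diff hz) (QQ_ne hz)
lemma FF_diff {z : ℂ} (hz : z ∈ dd) : DifferentiableAt ℂ FF z :=
  (PS_diff hz).div (QQ_diff hz) (QQ_ne hz)

lemma xx_zero : xx 0 = 0 := by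
  unfold xx PP D0 C0
  rw [mul_comm, sub_self, zero_div]

lemma AA_zero : AA 0 = ((1 / kap : ℝ) : ℂ) := by
  have h : QQ 0 = ((kap ^ 2 : ℝ) : ℂ) := by
    unfold QQ
    rw [kap_sq]
    change (starRingEnd ℂ) D0 * D0 - (starRingEnd ℂ) C0 * C0 = _
    rw [← normSq_eq_conj_mul_self, ← normSq_eq_conj_mul_self, normSq_eq_norm_sq, normSq_eq_norm_sq]
    push_cast
    rfl
  unfold AA
  rw [h]
  have h2 : (kap : ℂ) ≠ 0 := by
    have := kap_ge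
    exact_mod_cast (by linarith : (0 : ℝ) < kap).ne'
  push_cast
  field_simp

lemma AA_ne {z : ℂ} (hz : z ∈ dd) : AA z ≠ 0 := by
  unfold AA
  refine div_ne_zero ?_ (QQ_ne hz)
  have := kap_ge
  exact_mod_cast (by linarith : (0 : ℝ) < kap).ne'

lemma AA_norm (z : ℂ) : ‖AA z‖ = kap / ‖QQ z‖ := by
  unfold AA
  rw [norm_div, norm_real, Real.norm_of_nonneg (by linarith [kap_ge])]

lemma AA_le {z : ℂ} (hz : z ∈ dd) : ‖AA z‖ ≤ 1 := by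
  rw [AA_norm, div_le_one (norm_pos_iff.2 (QQ_ne hz))]
  exact kap_le_QQ hz

lemma one_sub_xx {z : ℂ} (hz : z ∈ dd) : 1 - ‖xx z‖ ^ 2 =
    kap ^ 2 * (‖fD (rr z)‖ ^ 2 - ‖fC (rr z)‖ ^ 2) / ‖QQ z‖ ^ 2 := by
  have h := QP_identity z
  have h2 : ‖QQ z‖ ≠ 0 := norm_ne_zero_iff.2 (QQ_ne hz)
  rw [← h]
  unfold xx
  rw [norm_div]
  field_simp

lemma AA_sq_le {z : ℂ} (hz : z ∈ dd) : ‖AA z‖ ^ 2 ≤ 1 - ‖xx z‖ ^ 2 := by
  rw [one_sub_xx hz, AA_norm, div_pow]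
  have h := DC_ge hz
  gcongr
  nlinarith [sq_nonneg kap]

lemma AA_sq_eq {z : ℂ} (hz : z ∈ dd) (h1 : ‖z‖ = 1) : ‖AA z‖ ^ 2 = 1 - ‖xx z‖ ^ 2 := by
  rw [one_sub_xx hz, AA_norm, div_pow, sub_eq_one _ (rr_ne_zero hz), mul_one]
  rw [rr_sq_im, pp_re, h1]
  simp

lemma FF_eq {z : ℂ} (hz : z ∈ dd) (h1 : ‖z‖ = 1) :
    FF z = (starRingEnd ℂ) (xx z) * AA z / (starRingEnd ℂ) (AA z) := by
  have him : ((rr z) ^ 2).im = 0 := by
    rw [rr_sq_im, pp_re, h1]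
    simp
  have hPS : PS z = (starRingEnd ℂ) (PP z) := by
    unfold PS PP
    rw [map_sub, map_mul, map_mul, conj_fC him, conj_fD him]
    ring
  unfold FF xx AA
  rw [hPS, map_div₀, map_div₀, conj_ofReal]
  have h2 := QQ_ne hz
  have h3 : (starRingEnd ℂ) (QQ z) ≠ 0 := (map_ne_zero _).2 h2
  have h4 : (kap : ℂ) ≠ 0 := by
    have := kap_ge
    exact_mod_cast (by linarith : (0 : ℝ) < kap).ne'
  field_simp

lemma FF_le {z : ℂ} (hz : z ∈ dd) : ‖FF z‖ ≤ 2 * ‖D0‖ / (‖D0‖ - ‖C0‖) := by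
  have h1 := C0_lt_D0
  have h2 := QQ_ge hz
  have h3 := PS_le hz
  have h4 : 0 < ‖D0‖ - ‖C0‖ := by linarith
  unfold FF
  rw [norm_div, div_le_div_iff₀ (norm_pos_iff.2 (QQ_ne hz)) h4]
  calc ‖PS z‖ * (‖D0‖ - ‖C0‖) ≤ (2 * ‖D0‖ * ‖fD (rr z)‖) * (‖D0‖ - ‖C0‖) := by gcongr
    _ = 2 * ‖D0‖ * ((‖D0‖ - ‖C0‖) * ‖fD (rr z)‖) := by ring
    _ ≤ _ := by gcongr

lemma AA_log {z : ℂ} (hz : z ∈ dd) :
    -Real.log ‖AA z‖ ≤ Real.log (4 * ‖D0‖) + 4 / √‖1 - z‖ := by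
  rw [AA_norm, Real.log_div (by linarith [kap_ge]) (norm_ne_zero_iff.2 (QQ_ne hz))]
  have h1 : 0 ≤ Real.log kap := Real.log_nonneg kap_ge
  have h2 : Real.log ‖QQ z‖ ≤ Real.log (4 * ‖D0‖) + 4 / √‖1 - z‖ := by
    have h3 : ‖QQ z‖ ≤ (4 * ‖D0‖) * Real.exp (4 / √‖1 - z‖) := by
      have h4 := norm_fD_le _ (rr_ne_zero hz)
      have h5 := rr_norm_le hz.1
      calc ‖QQ z‖ ≤ 2 * ‖D0‖ * ‖fD (rr z)‖ := QQ_le hz
        _ ≤ 2 * ‖D0‖ * (2 * Real.exp (2 * ‖rr z‖)) := by gcongr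
        _ = (4 * ‖D0‖) * Real.exp (2 * ‖rr z‖) := by ring
        _ ≤ (4 * ‖D0‖) * Real.exp (4 / √‖1 - z‖) := by
            gcongr
            calc 2 * ‖rr z‖ ≤ 2 * (2 / √‖1 - z‖) := by gcongr
              _ = 4 / √‖1 - z‖ := by ring
    have h6 : 0 < 4 * ‖D0‖ := by linarith [D0_ge]
    calc Real.log ‖QQ z‖ ≤ Real.log ((4 * ‖D0‖) * Real.exp (4 / √‖1 - z‖)) :=
          Real.log_le_log (norm_pos_iff.2 (QQ_ne hz)) h3
      _ = _ := by rw [Real.log_mul h6.ne' (Real.exp_pos _).ne', Real.log_exp]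
  linarith

end Pool.Agent.Y266.AC
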