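import Mathlib
import Pool.Agent.Y266.AC.Defs

/-!
# Limits of circle integrals at the boundary; outer functions
-/

noncomputable section

open MeasureTheory Set Filter Topology Metric
open scoped Real

namespace Pool.Agent.Y266.AC

lemma ee_norm (t : ℝ) : ‖ee t‖ = 1 := Complex.norm_exp_ofReal_mul_I t

lemma ee_continuous : Continuous ee := by
  unfold ee; fun_prop

lemma circleMap_eq_ee (t : ℝ) : circleMap 0 1 t = ee t := by
  simp [circleMap, ee]

lemma norm_one_sub_ee (t : ℝ) : ‖1 - ee t‖ = 2 * |Real.sin (t / 2)| := by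
  rw [norm_sub_rev]
  have h := Complex.norm_exp_I_mul_ofReal_sub_one (x := t)
  unfold ee
  rw [mul_comm, h]
  simp

lemma one_sub_ee_ge_left {t : ℝ} (h0 : 0 ≤ t) (h1 : t ≤ π) : t / 2 ≤ ‖1 - ee t‖ := by
  rw [norm_one_sub_ee]
  have h := Real.mul_le_sin (x := t / 2) (by linarith) (by linarith)
  have hpi : (1 : ℝ) / 2 ≤ 2 / π := by
    rw [div_le_div_iff₀ (by norm_num) Real.pi_pos]
    linarith [Real.pi_le_four]
  have h2 : t / 2 * (1 / 2) ≤ Real.sin (t / 2) := by nlinarith
  have h3 := le_abs_self (Real.sin (t / 2))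
  linarith

lemma one_sub_ee_ge_right {t : ℝ} (h0 : π ≤ t) (h1 : t ≤ 2 * π) :
    (2 * π - t) / 2 ≤ ‖1 - ee t‖ := by
  have h := one_sub_ee_ge_left (t := 2 * π - t) (by linarith) (by linarith)
  rw [norm_one_sub_ee] at h ⊢
  have h2 : Real.sin ((2 * π - t) / 2) = Real.sin (t / 2) := by
    rw [show (2 * π - t) / 2 = π - t / 2 by ring, Real.sin_pi_sub]
  rwa [h2] at h

/-- the weight of the dominating functions -/
def wt (t : ℝ) : ℝ := 1 / √‖1 - ee t‖

lemma wt_le {t : ℝ} (ht : t ∈ Ioo 0 (2 * π)) :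
    wt t ≤ 2 * t ^ (-(1 / 2) : ℝ) + 2 * (2 * π - t) ^ (-(1 / 2) : ℝ) := by
  have e1 : ∀ s : ℝ, 0 < s → s / 2 ≤ ‖1 - ee t‖ → wt t ≤ 2 * s ^ (-(1 / 2) : ℝ) := by
    intro s hs h
    unfold wt
    rw [Real.rpow_neg hs.le, ← Real.sqrt_eq_rpow]
    have h1 : √(s / 4) ≤ √‖1 - ee t‖ := Real.sqrt_le_sqrt (by linarith)
    have h2 : √(s / 4) = √s / 2 := by
      rw [Real.sqrt_div hs.le]
      congr 1
      rw [show (4 : ℝ) = 2 ^ 2 by norm_num, Real.sqrt_sq (by norm_num)]
    have h3 : 0 < √s := Real.sqrt_pos.2 hs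
    rw [h2] at h1
    calc 1 / √‖1 - ee t‖ ≤ 1 / (√s / 2) := by gcongr
      _ = 2 * (√s)⁻¹ := by field_simp
  have h2 : 0 ≤ 2 * t ^ (-(1 / 2) : ℝ) := by have := ht.1.le; positivity
  have h3 : 0 ≤ 2 * (2 * π - t) ^ (-(1 / 2) : ℝ) := by
    have : 0 ≤ 2 * π - t := by linarith [ht.2]
    positivity
  rcases le_total t π with h | h
  · have := e1 t ht.1 (one_sub_ee_ge_left ht.1.le h)
    linarith
  · have := e1 (2 * π - t) (by linarith [ht.2]) (one_sub_ee_ge_right h ht.2.le)
    linarith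

lemma wt_nonneg (t : ℝ) : 0 ≤ wt t := by unfold wt; positivity

lemma wt_measurable : Measurable wt := by
  unfold wt
  have : Continuous (fun t => √‖1 - ee t‖) := by
    have := ee_continuous
    fun_prop
  exact measurable_const.div this.measurable

lemma ae_leb_Ioo : ∀ᵐ t ∂leb, t ∈ Ioo 0 (2 * π) := by
  unfold leb
  have h1 : ∀ᵐ t ∂(volume.restrict (Ioc 0 (2 * π))), t ∈ Ioc 0 (2 * π) :=
    ae_restrict_mem measurableSet_Ioc
  have h2 : ∀ᵐ t ∂(volume.restrict (Ioc 0 (2 * π))), t ≠ 2 * π := by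
    apply ae_restrict_of_ae
    simp [ae_iff]
  filter_upwards [h1, h2] with t ht1 ht2
  exact ⟨ht1.1, lt_of_le_of_ne ht1.2 ht2⟩

lemma ae_leb_ne (s : ℝ) : ∀ᵐ t ∂leb, t ≠ s := by
  unfold leb
  apply ae_restrict_of_ae
  simp [ae_iff]

instance : IsFiniteMeasure leb := by unfold leb; infer_instance

lemma wt_integrable : Integrable wt leb := by
  have h1 : IntervalIntegrable (fun t : ℝ => t ^ (-(1 / 2) : ℝ)) volume 0 (2 * π) :=
    intervalIntegral.intervalIntegrable_rpow' (by norm_num)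
  have h2 : IntervalIntegrable (fun t : ℝ => (2 * π - t) ^ (-(1 / 2) : ℝ)) volume 0 (2 * π) := by
    have h := (h1.comp_sub_left (2 * π)).symm
    simpa using h
  have h3 : Integrable (fun t : ℝ => 2 * t ^ (-(1 / 2) : ℝ) + 2 * (2 * π - t) ^ (-(1 / 2) : ℝ))
      leb := by
    have h := (h1.const_mul 2).add (h2.const_mul 2)
    rw [intervalIntegrable_iff_integrableOn_Ioc_of_le (by positivity)] at h
    exact h
  refine h3.mono' wt_measurable.aestronglyMeasurable ?_
  filter_upwards [ae_leb_Ioo] with t ht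
  rw [Real.norm_of_nonneg (wt_nonneg t)]
  exact wt_le ht

lemma half_le {R : ℝ} (h0 : 0 ≤ R) (h1 : R ≤ 1) (t : ℝ) : ‖1 - ee t‖ ≤ 2 * ‖1 - R * ee t‖ := by
  have h2 : ‖1 - ee t‖ ≤ ‖1 - R * ee t‖ + ‖R * ee t - ee t‖ := by
    have := norm_add_le (1 - R * ee t) (R * ee t - ee t)
    simpa using this
  have h3 : ‖R * ee t - ee t‖ = 1 - R := by
    have : R * ee t - ee t = ((R - 1 : ℝ) : ℂ) * ee t := by push_cast; ring
    rw [this, norm_mul, ee_norm, mul_one, Complex.norm_real, Real.norm_eq_abs, abs_sub_comm,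
      abs_of_nonneg (by linarith)]
  have h4 : 1 - R ≤ ‖1 - R * ee t‖ := by
    have := norm_sub_norm_le (1 : ℂ) (R * ee t)
    rw [norm_mul, ee_norm, mul_one, norm_one, Complex.norm_real, Real.norm_of_nonneg h0] at this
    exact this
  linarith

lemma wt_radial {R : ℝ} (h0 : 0 ≤ R) (h1 : R ≤ 1) {t : ℝ} (ht : t ∈ Ioo 0 (2 * π)) :
    1 / √‖1 - R * ee t‖ ≤ 2 * wt t := by
  unfold wt
  have hpos : 0 < ‖1 - ee t‖ := by
    rw [norm_one_sub_ee]
    have : 0 < Real.sin (t / 2) := Real.sin_pos_of_pos_of_lt_pi (by linarith [ht.1])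
      (by linarith [ht.2])
    positivity
  have h := half_le h0 h1 t
  have h2 : √(‖1 - ee t‖ / 4) ≤ √‖1 - R * ee t‖ := Real.sqrt_le_sqrt (by
    have := norm_nonneg (1 - R * ee t)
    linarith)
  have h3 : √(‖1 - ee t‖ / 4) = √‖1 - ee t‖ / 2 := by
    rw [Real.sqrt_div hpos.le]
    congr 1
    rw [show (4 : ℝ) = 2 ^ 2 by norm_num, Real.sqrt_sq (by norm_num)]
  rw [h3] at h2
  have h4 : 0 < √‖1 - ee t‖ := Real.sqrt_pos.2 hpos
  calc 1 / √‖1 - R * ee t‖ ≤ 1 / (√‖1 - ee t‖ / 2) := by gcongr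
    _ = 2 * (1 / √‖1 - ee t‖) := by field_simp

lemma ball_radial {R : ℝ} (hR : R ∈ Ioo (0 : ℝ) 1) (t : ℝ) : (R : ℂ) * ee t ∈ ball (0 : ℂ) 1 := by
  rw [mem_ball_zero_iff, norm_mul, ee_norm, mul_one, Complex.norm_real,
    Real.norm_of_nonneg hR.1.le]
  exact hR.2

lemma radial_tendsto (z : ℂ) : Tendsto (fun R : ℝ => (R : ℂ) * z) (𝓝[<] 1) (𝓝 z) := by
  have h : Continuous (fun R : ℝ => (R : ℂ) * z) := by fun_prop
  have h2 := h.tendsto 1
  simp only [Complex.ofReal_one, one_mul] at h2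
  exact h2.mono_left nhdsWithin_le_nhds

lemma eventually_Ioo : ∀ᶠ R : ℝ in 𝓝[<] (1 : ℝ), R ∈ Ioo (0 : ℝ) 1 :=
  Ioo_mem_nhdsLT (by norm_num)

/-- dominated convergence for `u (R e^{it})`, `R → 1-` -/
lemma tendsto_radial_integral {E : Type*} [NormedAddCommGroup E] [NormedSpace ℝ E]
    (u : ℂ → E) (c : ℝ) (hu : ContinuousOn u (ball 0 1))
    (hb : ∀ z ∈ ball (0 : ℂ) 1, ‖u z‖ ≤ c + c / √‖1 - z‖)
    (hc : ∀ᵐ t ∂leb, ContinuousAt u (ee t)) (φ : ℝ → ℝ) (C : ℝ) (hφ : Continuous φ)
    (hφC : ∀ t, |φ t| ≤ C) :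
    Tendsto (fun R : ℝ => ∫ t, φ t • u (R * ee t) ∂leb) (𝓝[<] 1)
      (𝓝 (∫ t, φ t • u (ee t) ∂leb)) := by
  have hc0 : 0 ≤ c := by
    have h := hb 0 (by simp)
    simp only [sub_zero, norm_one, Real.sqrt_one, div_one] at h
    have := norm_nonneg (u 0)
    linarith
  have hC0 : 0 ≤ C := (abs_nonneg _).trans (hφC 0)
  refine tendsto_integral_filter_of_dominated_convergence (fun t => C * (c + 2 * c * wt t))
    ?_ ?_ ?_ ?_
  · filter_upwards [eventually_Ioo] with R hR
    have h1 : Continuous (fun t : ℝ => u (R * ee t)) := by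
      have h2 : Continuous (fun t : ℝ => (R : ℂ) * ee t) := by
        have := ee_continuous
        fun_prop
      exact hu.comp_continuous h2 (fun t => ball_radial hR t)
    exact (hφ.smul h1).aestronglyMeasurable
  · filter_upwards [eventually_Ioo] with R hR
    filter_upwards [ae_leb_Ioo] with t ht
    rw [norm_smul, Real.norm_eq_abs]
    have h1 := hb _ (ball_radial hR t)
    have h2 := wt_radial hR.1.le hR.2.le ht
    have h3 : ‖u (R * ee t)‖ ≤ c + 2 * c * wt t := by
      refine h1.trans ?_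
      have : c / √‖1 - R * ee t‖ = c * (1 / √‖1 - R * ee t‖) := by ring
      rw [this]
      have : c * (1 / √‖1 - R * ee t‖) ≤ c * (2 * wt t) := by gcongr
      linarith
    gcongr
    exact hφC t
  · exact ((integrable_const _).add (wt_integrable.const_mul _)).const_mul _
  · filter_upwards [hc] with t ht
    exact (ht.tendsto.comp (radial_tendsto (ee t))).const_smul (φ t)

lemma integrable_bdry {E : Type*} [NormedAddCommGroup E] [NormedSpace ℝ E]
    (u : ℂ → E) (c : ℝ) (hu : ContinuousOn u (ball 0 1))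
    (hb : ∀ z ∈ ball (0 : ℂ) 1, ‖u z‖ ≤ c + c / √‖1 - z‖)
    (hc : ∀ᵐ t ∂leb, ContinuousAt u (ee t)) : Integrable (fun t => u (ee t)) leb := by
  have hc0 : 0 ≤ c := by
    have h := hb 0 (by simp)
    simp only [sub_zero, norm_one, Real.sqrt_one, div_one] at h
    have := norm_nonneg (u 0)
    linarith
  have hlim : ∀ᵐ t ∂leb, Tendsto (fun R : ℝ => u (R * ee t)) (𝓝[<] 1) (𝓝 (u (ee t))) := by
    filter_upwards [hc] with t ht
    exact ht.tendsto.comp (radial_tendsto (ee t))
  obtain ⟨s, hs1, hs2⟩ : ∃ s : ℕ → ℝ, (∀ n, s n ∈ Ioo (0 : ℝ) 1) ∧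
      Tendsto s atTop (𝓝[<] 1) := by
    refine ⟨fun n => 1 - 1 / ((n : ℝ) + 2), fun n => ?_, ?_⟩
    · have h1 : (0 : ℝ) < (n : ℝ) + 2 := by positivity
      have h2 : 1 / ((n : ℝ) + 2) < 1 := by
        rw [div_lt_one h1]
        have : (0 : ℝ) ≤ n := Nat.cast_nonneg n
        linarith
      have h3 : 0 < 1 / ((n : ℝ) + 2) := by positivity
      constructor <;> linarith
    · rw [tendsto_nhdsWithin_iff]
      constructor
      · have h : Tendsto (fun n : ℕ => 1 / ((n : ℝ) + 2)) atTop (𝓝 0) := by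
          have := tendsto_one_div_add_atTop_nhds_zero_nat (𝕜 := ℝ)
          have h2 := (tendsto_add_atTop_iff_nat 1).2 this
          refine h2.congr (fun n => ?_)
          push_cast
          ring_nf
        have h3 := h.const_sub 1
        simpa using h3
      · filter_upwards with n
        have h1 : (0 : ℝ) < 1 / ((n : ℝ) + 2) := by positivity
        simp only [mem_Iio]
        linarith
  have hmeas : AEStronglyMeasurable (fun t => u (ee t)) leb := by
    refine aestronglyMeasurable_of_tendsto_ae atTop (f := fun (n : ℕ) t => u ((s n : ℂ) * ee t))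
      ?_ ?_
    · intro n
      have h2 : Continuous (fun t : ℝ => (s n : ℂ) * ee t) := by
        have := ee_continuous
        fun_prop
      exact (hu.comp_continuous h2 (fun t => ball_radial (hs1 n) t)).aestronglyMeasurable
    · filter_upwards [hlim] with t ht
      exact ht.comp hs2
  refine ((integrable_const c).add (wt_integrable.const_mul (2 * c))).mono' hmeas ?_
  filter_upwards [hlim, ae_leb_Ioo] with t ht ht2
  refine le_of_tendsto ht.norm ?_
  filter_upwards [eventually_Ioo] with R hR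
  refine (hb _ (ball_radial hR t)).trans ?_
  have h2 := wt_radial hR.1.le hR.2.le ht2
  have : c / √‖1 - R * ee t‖ = c * (1 / √‖1 - R * ee t‖) := by ring
  rw [this]
  have : c * (1 / √‖1 - R * ee t‖) ≤ c * (2 * wt t) := by gcongr
  simp only [Pi.add_apply]
  linarith

lemma circleAverage_eq {E : Type*} [NormedAddCommGroup E] [NormedSpace ℝ E] (f : ℂ → E) :
    Real.circleAverage f 0 1 = (2 * π)⁻¹ • ∫ t, f (ee t) ∂leb := by
  rw [Real.circleAverage_def, intervalIntegral.integral_of_le (by positivity)]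
  congr 1
  unfold leb
  simp_rw [circleMap_eq_ee]

lemma herg_cont {w : ℂ} (hw : w ∈ ball (0 : ℂ) 1) :
    Continuous (fun t : ℝ => (herglotzRieszKernel 0 w (ee t)).re) := by
  have hne : ∀ t : ℝ, ee t - w ≠ 0 := by
    intro t h
    have h2 : ee t = w := sub_eq_zero.1 h
    rw [mem_ball_zero_iff, ← h2, ee_norm] at hw
    exact lt_irrefl _ hw
  unfold herglotzRieszKernel
  have h3 := ee_continuous
  simp only [sub_zero]
  exact Complex.continuous_re.comp ((h3.add continuous_const).div (h3.sub continuous_const) hne)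

lemma herg_bound {w : ℂ} (hw : w ∈ ball (0 : ℂ) 1) :
    ∃ C : ℝ, ∀ t : ℝ, |(herglotzRieszKernel 0 w (ee t)).re| ≤ C := by
  refine ⟨(1 + ‖w‖) / (1 - ‖w‖), fun t => ?_⟩
  refine (Complex.abs_re_le_norm _).trans ?_
  unfold herglotzRieszKernel
  simp only [sub_zero]
  rw [norm_div]
  have hw' : ‖w‖ < 1 := mem_ball_zero_iff.1 hw
  have h1 : ‖ee t + w‖ ≤ 1 + ‖w‖ := by
    have := norm_add_le (ee t) w
    rwa [ee_norm] at this
  have h2 : 1 - ‖w‖ ≤ ‖ee t - w‖ := by
    have := norm_sub_norm_le (ee t) w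
    rwa [ee_norm] at this
  have h3 : 0 < 1 - ‖w‖ := by linarith
  gcongr

/-- **Outer functions.** A zero free holomorphic function on the disc, positive at the origin,
with `|log |A (z)|| ≤ c + c / √|1 - z|` and continuous nonzero boundary values almost everywhere
is outer. -/
theorem outer_formula (A : ℂ → ℂ) (c κ : ℝ) (hd : DifferentiableOn ℂ A (ball 0 1))
    (hne : ∀ z ∈ ball (0 : ℂ) 1, A z ≠ 0)
    (hc : ∀ᵐ t ∂leb, ContinuousAt A (ee t) ∧ A (ee t) ≠ 0)
    (hb : ∀ z ∈ ball (0 : ℂ) 1, |Real.log ‖A z‖| ≤ c + c / √‖1 - z‖)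
    (hκ : 0 < κ) (h0 : A 0 = κ) :
    Integrable (fun t => Real.log ‖A (ee t)‖) leb ∧
    ∀ z ∈ ball (0 : ℂ) 1, A z = Complex.exp ((2 * π : ℂ)⁻¹ *
        ∫ t, (ee t + z) / (ee t - z) * (Real.log ‖A (ee t)‖ : ℂ) ∂leb) := by
  have hAcont : ContinuousOn A (ball 0 1) := hd.continuousOn
  have hucont : ContinuousOn (fun z => Real.log ‖A z‖) (ball 0 1) := by
    intro z hz
    exact ((hAcont z hz).norm).log (norm_ne_zero_iff.2 (hne z hz))
  have huc : ∀ᵐ t ∂leb, ContinuousAt (fun z => Real.log ‖A z‖) (ee t) := by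
    filter_upwards [hc] with t ht
    exact ht.1.norm.log (norm_ne_zero_iff.2 ht.2)
  have hint : Integrable (fun t => Real.log ‖A (ee t)‖) leb :=
    integrable_bdry (fun z => Real.log ‖A z‖) c hucont (by simpa using hb) huc
  refine ⟨hint, ?_⟩
  set g : ℂ → ℝ := fun ζ => Real.log ‖A ζ‖ with hg
  have hcirc : CircleIntegrable g 0 1 := by
    unfold CircleIntegrable
    rw [intervalIntegrable_iff_integrableOn_Ioc_of_le (by positivity)]
    simp_rw [circleMap_eq_ee]
    exact hint
  -- Poisson formula at the boundary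
  have hpois : ∀ w ∈ ball (0 : ℂ) 1,
      Real.circleAverage ((Complex.re ∘ herglotzRieszKernel 0 w) • g) 0 1 = g w := by
    intro w hw
    have hR : ∀ R ∈ Ioo (0 : ℝ) 1,
        (2 * π)⁻¹ • ∫ t, (herglotzRieszKernel 0 w (ee t)).re • g (R * ee t) ∂leb = g (R * w) := by
      intro R hR
      have hharm : InnerProductSpace.HarmonicOnNhd (fun ζ : ℂ => g (R * ζ)) (closedBall 0 1) := by
        intro ζ hζ
        have hmem : (R : ℂ) * ζ ∈ ball (0 : ℂ) 1 := by
          rw [mem_ball_zero_iff, norm_mul, Complex.norm_real, Real.norm_of_nonneg hR.1.le]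
          rw [mem_closedBall_zero_iff] at hζ
          have := hR.1
          have := hR.2
          nlinarith [norm_nonneg ζ]
        have hA : AnalyticAt ℂ A ((R : ℂ) * ζ) := hd.analyticAt (isOpen_ball.mem_nhds hmem)
        have hA2 : AnalyticAt ℂ (fun ζ : ℂ => A ((R : ℂ) * ζ)) ζ :=
          hA.fun_comp (analyticAt_const.mul analyticAt_id)
        exact hA2.harmonicAt_log_norm (hne _ hmem)
      have h := hharm.circleAverage_re_herglotzRieszKernel_smul hw
      rw [circleAverage_eq] at h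
      simpa using h
    have hlim1 := tendsto_radial_integral g c hucont (by simpa using hb) huc
      (fun t => (herglotzRieszKernel 0 w (ee t)).re) _ (herg_cont hw) (herg_bound hw).choose_spec
    have hlim2 : Tendsto (fun R : ℝ => g (R * w)) (𝓝[<] 1) (𝓝 (g w)) :=
      ((hucont.continuousAt (isOpen_ball.mem_nhds hw)).tendsto).comp (radial_tendsto w)
    have hlim3 := hlim1.const_smul ((2 * π)⁻¹)
    have heq : g w = (2 * π)⁻¹ • ∫ t, (herglotzRieszKernel 0 w (ee t)).re • g (ee t) ∂leb := by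
      refine tendsto_nhds_unique hlim2 (hlim3.congr' ?_)
      filter_upwards [eventually_Ioo] with R hR2
      exact hR R hR2
    rw [heq, circleAverage_eq]
    simp
  -- the holomorphic completion
  set G : ℂ → ℂ := fun w => Real.circleAverage
    (fun ζ ↦ herglotzRieszKernel 0 w ζ • (g ζ : ℂ)) 0 1 with hG
  have hcircC : CircleIntegrable (fun ζ => (g ζ : ℂ)) 0 1 := by
    have := hcirc
    simp only [CircleIntegrable, intervalIntegrable_iff] at this ⊢
    exact Complex.ofRealCLM.integrable_comp this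
  have hGan : AnalyticOnNhd ℂ G (ball 0 1) :=
    analyticOnNhd_circleAverage_herglotzRieszKernel_smul hcircC
  have hGre : ∀ w ∈ ball (0 : ℂ) 1, (G w).re = g w := by
    intro w hw
    rw [hG]
    simp only
    rw [re_circleAverage_herglotzRieszKernel_smul hcirc hw]
    exact hpois w hw
  set h : ℂ → ℂ := fun w => A w * Complex.exp (-G w) with hh
  have hhd : DifferentiableOn ℂ h (ball 0 1) :=
    hd.mul (hGan.differentiableOn.neg.cexp)
  have hhn : ∀ w ∈ ball (0 : ℂ) 1, ‖h w‖ = 1 := by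
    intro w hw
    rw [hh]
    simp only
    rw [norm_mul, Complex.norm_exp, Complex.neg_re, hGre w hw, hg]
    simp only
    rw [Real.exp_neg, Real.exp_log (norm_pos_iff.2 (hne w hw))]
    exact mul_inv_cancel₀ (norm_ne_zero_iff.2 (hne w hw))
  have hconst : EqOn h (Function.const ℂ (h 0)) (ball 0 1) := by
    apply Complex.eqOn_of_isPreconnected_of_isMaxOn_norm
      (convex_ball (0 : ℂ) 1).isPreconnected isOpen_ball hhd (mem_ball_self one_pos)
    intro w hw
    simp only [Function.comp_apply, mem_ofPred_eq]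
    rw [hhn w hw, hhn 0 (mem_ball_self one_pos)]
  have hG0 : G 0 = ((G 0).re : ℂ) := by
    have h1 : G 0 = ((Real.circleAverage g 0 1 : ℝ) : ℂ) := by
      rw [hG]
      simp only
      rw [circleAverage_eq, circleAverage_eq]
      have : ∀ t : ℝ, herglotzRieszKernel 0 0 (ee t) • (g (ee t) : ℂ) = ((g (ee t) : ℝ) : ℂ) := by
        intro t
        unfold herglotzRieszKernel
        have : ee t ≠ 0 := by
          intro h
          have := ee_norm t
          rw [h, norm_zero] at this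
          norm_num at this
        simp [this]
      simp_rw [this]
      rw [integral_complex_ofReal]
      simp
    rw [h1, Complex.ofReal_re]
  have hh0 : h 0 = 1 := by
    have h1 : h 0 = ((κ * Real.exp (-(G 0).re) : ℝ) : ℂ) := by
      rw [hh]
      simp only
      rw [h0, hG0]
      push_cast
      simp
    have h2 := hhn 0 (mem_ball_self one_pos)
    rw [h1, Complex.norm_real, Real.norm_of_nonneg (by positivity)] at h2
    rw [h1, h2, Complex.ofReal_one]
  intro z hz
  have h1 : h z = 1 := by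
    have := hconst hz
    rw [this, Function.const_apply, hh0]
  have h2 : A z = Complex.exp (G z) := by
    have h3 : A z * Complex.exp (-G z) = 1 := h1
    rw [Complex.exp_neg] at h3
    have := Complex.exp_ne_zero (G z)
    field_simp at h3
    exact h3
  rw [h2]
  congr 1
  rw [hG]
  simp only
  rw [circleAverage_eq]
  rw [Complex.real_smul]
  congr 1
  · push_cast; rfl
  · refine integral_congr_ae (Eventually.of_forall fun t => ?_)
    simp [herglotzRieszKernel, hg]

/-- The Fourier coefficients of negative index of the boundary function of a bounded holomorphic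
function vanish. -/
theorem fourier_zero (F : ℂ → ℂ) (c : ℝ) (hd : DifferentiableOn ℂ F (ball 0 1))
    (hb : ∀ z ∈ ball (0 : ℂ) 1, ‖F z‖ ≤ c) (hc : ∀ᵐ t ∂leb, ContinuousAt F (ee t)) (n : ℕ)
    (hn : 1 ≤ n) : ∫ t, (ee t) ^ n * F (ee t) ∂leb = 0 := by
  set u : ℂ → ℂ := fun z => z ^ n * F z with hu
  have hud : DifferentiableOn ℂ u (ball 0 1) := (differentiableOn_pow n).mul hd
  have hc0 : 0 ≤ c := (norm_nonneg _).trans (hb 0 (by simp))
  have hub : ∀ z ∈ ball (0 : ℂ) 1, ‖u z‖ ≤ c + c / √‖1 - z‖ := by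
    intro z hz
    have h1 : ‖u z‖ ≤ c := by
      rw [hu]
      simp only
      rw [norm_mul, norm_pow]
      have : ‖z‖ ^ n ≤ 1 := pow_le_one₀ (norm_nonneg _) (mem_ball_zero_iff.1 hz).le
      have h2 := hb z hz
      nlinarith [norm_nonneg (F z)]
    have : 0 ≤ c / √‖1 - z‖ := by positivity
    linarith
  have huc : ∀ᵐ t ∂leb, ContinuousAt u (ee t) := by
    filter_upwards [hc] with t ht
    exact (continuousAt_id.pow n).mul ht
  have hlim := tendsto_radial_integral u c hud.continuousOn hub huc (fun _ => 1) 1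
    continuous_const (fun t => by simp)
  simp only [one_smul] at hlim
  have hzero : ∀ R ∈ Ioo (0 : ℝ) 1, ∫ t, u (R * ee t) ∂leb = 0 := by
    intro R hR
    have hdc : DiffContOnCl ℂ (fun z => u (R * z)) (ball 0 |(1 : ℝ)|) := by
      rw [abs_one]
      apply DifferentiableOn.diffContOnCl
      rw [closure_ball (0 : ℂ) one_ne_zero]
      intro ζ hζ
      have hmem : (R : ℂ) * ζ ∈ ball (0 : ℂ) 1 := by
        rw [mem_ball_zero_iff, norm_mul, Complex.norm_real, Real.norm_of_nonneg hR.1.le]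
        rw [mem_closedBall_zero_iff] at hζ
        have := hR.1
        have := hR.2
        nlinarith [norm_nonneg ζ]
      have h1 : DifferentiableAt ℂ u ((R : ℂ) * ζ) := hud.differentiableAt (isOpen_ball.mem_nhds hmem)
      have h2 : DifferentiableAt ℂ (fun z : ℂ => (R : ℂ) * z) ζ := by fun_prop
      exact (DifferentiableAt.comp ζ h1 h2).differentiableWithinAt
    have h := hdc.circleAverage
    rw [circleAverage_eq] at h
    have h3 : u (R * (0 : ℂ)) = 0 := by
      rw [hu]
      simp only [mul_zero]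
      rw [zero_pow (by omega), zero_mul]
    rw [h3] at h
    have h4 : (2 * π)⁻¹ ≠ 0 := by positivity
    exact (smul_eq_zero.1 h).resolve_left h4
  refine tendsto_nhds_unique (hlim.congr' ?_ : Tendsto (fun _ : ℝ => (0 : ℂ)) (𝓝[<] 1) _)
    tendsto_const_nhds
  filter_upwards [eventually_Ioo] with R hR
  exact hzero R hR

end Pool.Agent.Y266.AC
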