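import Mathlib
import Pool.Agent.Y266.AC.Bdry

/-!
# Absolute continuity from local bounds of the Herglotz transform
-/

noncomputable section

open MeasureTheory Set Filter Topology Metric
open scoped Real ENNReal

namespace Pool.Agent.Y266.AC

lemma ee_sub_le (s t : ℝ) : ‖ee s - ee t‖ ≤ |s - t| := by
  have h : ee s - ee t = ee t * (Complex.exp (Complex.I * ((s - t : ℝ) : ℂ)) - 1) := by
    unfold ee
    rw [mul_sub, ← Complex.exp_add]
    congr 1
    · congr 1
      push_cast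
      ring
    · ring
  rw [h, norm_mul, ee_norm, one_mul]
  have := Real.norm_exp_I_mul_ofReal_sub_one_le (x := s - t)
  rwa [Real.norm_eq_abs] at this

lemma kernel_re (z : ℂ) (t : ℝ) :
    ((ee t + z) / (ee t - z)).re = (1 - ‖z‖ ^ 2) / ‖ee t - z‖ ^ 2 := by
  have h := congrFun (poissonKernel_eq_re_herglotzRieszKernel (c := 0) (w := z)) (ee t)
  simp only [poissonKernel, herglotzRieszKernel, Function.comp_apply, sub_zero, ee_norm] at h
  rw [← h]
  norm_num

lemma ee_ne {z : ℂ} (hz : z ∈ ball (0 : ℂ) 1) (t : ℝ) : ee t - z ≠ 0 := by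
  intro h
  rw [mem_ball_zero_iff, ← sub_eq_zero.1 h, ee_norm] at hz
  exact lt_irrefl _ hz

lemma kernel_cont {z : ℂ} (hz : z ∈ ball (0 : ℂ) 1) :
    Continuous (fun t : ℝ => (ee t + z) / (ee t - z)) :=
  (ee_continuous.add continuous_const).div (ee_continuous.sub continuous_const) (ee_ne hz)

lemma kernel_norm_le {z : ℂ} (hz : z ∈ ball (0 : ℂ) 1) (t : ℝ) :
    ‖(ee t + z) / (ee t - z)‖ ≤ (1 + ‖z‖) / (1 - ‖z‖) := by
  rw [norm_div]
  have hw' : ‖z‖ < 1 := mem_ball_zero_iff.1 hz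
  have h1 : ‖ee t + z‖ ≤ 1 + ‖z‖ := by
    have := norm_add_le (ee t) z
    rwa [ee_norm] at this
  have h2 : 1 - ‖z‖ ≤ ‖ee t - z‖ := by
    have := norm_sub_norm_le (ee t) z
    rwa [ee_norm] at this
  have h3 : 0 < 1 - ‖z‖ := by linarith
  gcongr

lemma kernel_integrable {z : ℂ} (hz : z ∈ ball (0 : ℂ) 1) (μ : Measure ℝ) [IsFiniteMeasure μ] :
    Integrable (fun t : ℝ => (ee t + z) / (ee t - z)) μ :=
  (integrable_const ((1 + ‖z‖) / (1 - ‖z‖))).mono' (kernel_cont hz).aestronglyMeasurable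
    (Eventually.of_forall (kernel_norm_le hz))

lemma re_integral {z : ℂ} (hz : z ∈ ball (0 : ℂ) 1) (μ : Measure ℝ) [IsFiniteMeasure μ] :
    (∫ t, (ee t + z) / (ee t - z) ∂μ).re = ∫ t, (1 - ‖z‖ ^ 2) / ‖ee t - z‖ ^ 2 ∂μ := by
  have h := integral_re (kernel_integrable hz μ)
  simp only [RCLike.re_eq_complex_re] at h
  rw [← h]
  simp_rw [kernel_re]

/-- mass of a small set from the Poisson integral -/
lemma mass_le {z : ℂ} (hz : z ∈ ball (0 : ℂ) 1) (μ : Measure ℝ) [IsFiniteMeasure μ]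
    (s : Set ℝ) (hs : MeasurableSet s) (b B : ℝ) (hb : 0 < b)
    (hk : ∀ t ∈ s, b ≤ (1 - ‖z‖ ^ 2) / ‖ee t - z‖ ^ 2)
    (hB : ‖∫ t, (ee t + z) / (ee t - z) ∂μ‖ ≤ B) : μ.real s ≤ B / b := by
  have h1 : ∫ t, (1 - ‖z‖ ^ 2) / ‖ee t - z‖ ^ 2 ∂μ ≤ B := by
    rw [← re_integral hz μ]
    exact (Complex.re_le_norm _).trans hB
  have hz1 : ‖z‖ < 1 := mem_ball_zero_iff.1 hz
  have hint : Integrable (fun t => (1 - ‖z‖ ^ 2) / ‖ee t - z‖ ^ 2) μ := by
    have h := (kernel_integrable hz μ).re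
    refine h.congr (Eventually.of_forall fun t => ?_)
    simp only [RCLike.re_eq_complex_re]
    exact kernel_re z t
  have hnn : ∀ t, 0 ≤ (1 - ‖z‖ ^ 2) / ‖ee t - z‖ ^ 2 := by
    intro t
    have : ‖z‖ ^ 2 ≤ 1 := by nlinarith [norm_nonneg z]
    exact div_nonneg (by linarith) (by positivity)
  have h2 : b * μ.real s ≤ ∫ t, (1 - ‖z‖ ^ 2) / ‖ee t - z‖ ^ 2 ∂μ := by
    calc b * μ.real s = ∫ t, s.indicator (fun _ => b) t ∂μ := by
          rw [integral_indicator_const _ hs, smul_eq_mul, mul_comm]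
      _ ≤ _ := by
          refine integral_mono ((integrable_const b).indicator hs) hint ?_
          intro t
          by_cases ht : t ∈ s
          · simpa [ht] using hk t ht
          · simpa [ht] using hnn t
  rw [le_div_iff₀ hb]
  linarith

/-- **Absolute continuity criterion.** -/
theorem absCont (μ : Measure ℝ) [IsFiniteMeasure μ] (hsupp : μ (Ioc 0 (2 * π))ᶜ = 0)
    (G : ℂ → ℝ) (Φ : ℝ → ℝ) (hΦ : ∀ x y : ℝ, 0 < x → x ≤ y → Φ y ≤ Φ x)
    (hΦ0 : ∀ x, 0 ≤ Φ x)
    (hG : ∀ z ∈ ball (0 : ℂ) 1, ‖∫ t, (ee t + z) / (ee t - z) ∂μ‖ ≤ G z)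
    (hGΦ : ∀ z ∈ ball (0 : ℂ) 1, G z ≤ Φ ‖1 - z‖)
    (hrad : Tendsto (fun s : ℝ => (1 - s) * G (s : ℂ)) (𝓝[<] 1) (𝓝 0)) :
    μ ≪ volume := by
  -- the atom at `2π`
  have hatom : μ {2 * π} = 0 := by
    have h1 : ∀ s ∈ Ioo (0 : ℝ) 1, μ.real {2 * π} ≤ (1 - s) * G (s : ℂ) := by
      intro s hs
      have hs' : (s : ℂ) ∈ ball (0 : ℂ) 1 := by
        rw [mem_ball_zero_iff, Complex.norm_real, Real.norm_of_nonneg hs.1.le]
        exact hs.2
      have h2 := mass_le hs' μ {2 * π} (measurableSet_singleton _) (1 / (1 - s)) (G s)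
        (by have := hs.2; have : 0 < 1 - s := by linarith
            positivity) ?_ (hG _ hs')
      · rw [div_div_eq_mul_div, div_one] at h2
        linarith [mul_comm (G (s : ℂ)) (1 - s)]
      · intro t ht
        rw [mem_singleton_iff] at ht
        have he : ee t = 1 := by
          rw [ht]
          unfold ee
          push_cast
          exact Complex.exp_two_pi_mul_I
        have h3 : ‖ee t - (s : ℂ)‖ = 1 - s := by
          rw [he]
          have : (1 : ℂ) - (s : ℂ) = ((1 - s : ℝ) : ℂ) := by push_cast; rfl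
          rw [this, Complex.norm_real, Real.norm_of_nonneg (by linarith [hs.2])]
        rw [h3, Complex.norm_real, Real.norm_of_nonneg hs.1.le]
        have h4 : 0 < 1 - s := by linarith [hs.2]
        rw [div_le_div_iff₀ h4 (by positivity)]
        have := hs.1
        nlinarith [mul_pos h4 this, mul_pos h4 (mul_pos h4 this)]
    have h2 : μ.real {2 * π} ≤ 0 := by
      refine ge_of_tendsto hrad ?_
      filter_upwards [eventually_Ioo] with s hs
      exact h1 s hs
    have h3 : μ.real {2 * π} = 0 := le_antisymm h2 measureReal_nonneg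
    rwa [measureReal_eq_zero_iff] at h3
  -- local estimate
  have hloc : ∀ t ∈ Ioo 0 (2 * π), ∀ ε ∈ Ioo (0 : ℝ) 1,
      μ (closedBall t ε) ≤ ENNReal.ofReal (2 * Φ (‖1 - ee t‖ / 2)) * volume (closedBall t ε) := by
    intro t ht ε hε
    have hR : (1 - ε) ∈ Ioo (0 : ℝ) 1 := ⟨by linarith [hε.2], by linarith [hε.1]⟩
    set z : ℂ := ((1 - ε : ℝ) : ℂ) * ee t with hz
    have hzb : z ∈ ball (0 : ℂ) 1 := ball_radial hR t
    have hzn : ‖z‖ = 1 - ε := by
      rw [hz, norm_mul, ee_norm, mul_one, Complex.norm_real, Real.norm_of_nonneg hR.1.le]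
    have hpos : 0 < ‖1 - ee t‖ := by
      rw [norm_one_sub_ee]
      have : 0 < Real.sin (t / 2) := Real.sin_pos_of_pos_of_lt_pi (by linarith [ht.1])
        (by linarith [ht.2])
      positivity
    have hhalf := half_le hR.1.le hR.2.le t
    have hGz : G z ≤ Φ (‖1 - ee t‖ / 2) := by
      refine (hGΦ z hzb).trans (hΦ _ _ (by positivity) ?_)
      rw [hz]
      linarith
    have hε0 := hε.1
    have hm := mass_le hzb μ (closedBall t ε) measurableSet_closedBall (1 / (4 * ε))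
      (Φ (‖1 - ee t‖ / 2)) (by positivity) ?_ ((hG z hzb).trans hGz)
    · rw [Real.volume_closedBall, ← ENNReal.ofReal_mul (by have := hΦ0 (‖1 - ee t‖ / 2); positivity)]
      rw [← ENNReal.ofReal_toReal (measure_ne_top μ (closedBall t ε))]
      apply ENNReal.ofReal_le_ofReal
      change μ.real (closedBall t ε) ≤ _
      refine hm.trans (le_of_eq ?_)
      field_simp
      ring
    · intro s hs
      have h1 : ‖ee s - z‖ ≤ 2 * ε := by
        have h2 : ee s - z = (ee s - ee t) + (ε : ℂ) * ee t := by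
          rw [hz]; push_cast; ring
        rw [h2]
        refine (norm_add_le _ _).trans ?_
        rw [norm_mul, ee_norm, mul_one, Complex.norm_real, Real.norm_of_nonneg hε0.le]
        have h3 := ee_sub_le s t
        rw [mem_closedBall, Real.dist_eq] at hs
        linarith
      rw [hzn]
      have h2 : 0 < ‖ee s - z‖ := norm_pos_iff.2 (ee_ne hzb s)
      rw [div_le_div_iff₀ (by positivity) (by positivity)]
      have h3 : ‖ee s - z‖ ^ 2 ≤ (2 * ε) ^ 2 := by gcongr
      have h4 := hε.2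
      nlinarith [mul_pos hε0 hε0, mul_pos (mul_pos hε0 hε0) (by linarith : 0 < 1 - ε)]
  -- Vitali family
  refine Measure.AbsolutelyContinuous.mk fun A hA hA0 => ?_
  have hcov : A ⊆ (Ioc 0 (2 * π))ᶜ ∪ {2 * π} ∪
      ⋃ n : ℕ, (A ∩ {t | t ∈ Ioo 0 (2 * π) ∧ 2 * Φ (‖1 - ee t‖ / 2) ≤ n}) := by
    intro t htA
    by_cases h1 : t ∈ Ioc 0 (2 * π)
    · by_cases h2 : t = 2 * π
      · left; right; exact h2
      · right
        obtain ⟨n, hn⟩ := exists_nat_ge (2 * Φ (‖1 - ee t‖ / 2))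
        rw [mem_iUnion]
        exact ⟨n, htA, ⟨h1.1, lt_of_le_of_ne h1.2 h2⟩, hn⟩
    · left; left; exact h1
  refine measure_mono_null hcov ?_
  rw [measure_union_null_iff, measure_union_null_iff]
  refine ⟨⟨hsupp, hatom⟩, ?_⟩
  rw [measure_iUnion_null_iff]
  intro n
  set S : Set ℝ := A ∩ {t | t ∈ Ioo 0 (2 * π) ∧ 2 * Φ (‖1 - ee t‖ / 2) ≤ n} with hS
  have hSvol : volume S = 0 := measure_mono_null inter_subset_left hA0
  set v := Besicovitch.vitaliFamily (μ + volume) with hv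
  have hle : μ S ≤ ((n : NNReal) • (volume : Measure ℝ)) S := by
    refine v.measure_le_of_frequently_le ((n : NNReal) • (volume : Measure ℝ)) ?_ S ?_
    · exact (Measure.le_add_right le_rfl).absolutelyContinuous
    · intro t ht
      have ht1 : t ∈ Ioo 0 (2 * π) := ht.2.1
      have htn : 2 * Φ (‖1 - ee t‖ / 2) ≤ n := ht.2.2
      have htend := Besicovitch.tendsto_filterAt (μ + volume) t
      refine htend.frequently ?_
      have hev : ∀ᶠ r : ℝ in 𝓝[>] (0 : ℝ), r ∈ Ioo (0 : ℝ) 1 := Ioo_mem_nhdsGT (by norm_num)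
      refine Eventually.frequently ?_
      filter_upwards [hev] with ε hε
      refine (hloc t ht1 ε hε).trans ?_
      rw [Measure.smul_apply, ENNReal.smul_def, smul_eq_mul, ENNReal.coe_natCast]
      gcongr
      rw [ENNReal.ofReal_le_iff_le_toReal (ENNReal.natCast_ne_top n), ENNReal.toReal_natCast]
      exact htn
  rw [Measure.smul_apply, hSvol, smul_zero] at hle
  exact le_antisymm hle bot_le

end Pool.Agent.Y266.AC
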