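import Mathlib
import Pool.Agent.Y266.AC.Energy

/-!
# The radial estimate
-/

noncomputable section

open Complex Set Filter Topology Metric
open scoped Real

namespace Pool.Agent.Y266.AC

lemma exp_ge_aux {k : ℝ} (hk : 2 ≤ k) : 15 * k ≤ (Real.exp k) ^ 2 := by
  have hk0 : 0 < k := by linarith
  have h1' : 1 + (2 * k) + (2 * k) ^ 2 / 2 + (2 * k) ^ 3 / 6 + (2 * k) ^ 4 / 24
      + (2 * k) ^ 5 / 120 ≤ Real.exp (2 * k) := by
    have h := Real.sum_le_exp_of_nonneg (x := 2 * k) (by linarith) 6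
    norm_num [Finset.sum_range_succ, Nat.factorial] at h
    linarith
  have h2 : (Real.exp k) ^ 2 = Real.exp (2 * k) := by
    rw [← Real.exp_nat_mul]; norm_num
  rw [h2]
  refine le_trans ?_ h1'
  have hk4 : 8 * k ≤ k ^ 4 := by
    calc 8 * k = 2 ^ 3 * k := by norm_num
      _ ≤ k ^ 3 * k := by gcongr
      _ = k ^ 4 := by ring
  have hk3 : 4 * k ≤ k ^ 3 := by
    calc 4 * k = 2 ^ 2 * k := by norm_num
      _ ≤ k ^ 2 * k := by gcongr
      _ = k ^ 3 := by ring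
  have hk2 : 2 * k ≤ k ^ 2 := by nlinarith
  have hk5 : 16 * k ≤ k ^ 5 := by
    calc 16 * k = 2 ^ 4 * k := by norm_num
      _ ≤ k ^ 4 * k := by gcongr
      _ = k ^ 5 := by ring
  have e3 : (2 * k) ^ 3 / 6 = (4 / 3) * k ^ 3 := by ring
  have e4 : (2 * k) ^ 4 / 24 = (2 / 3) * k ^ 4 := by ring
  have e5 : (2 * k) ^ 5 / 120 = (4 / 15) * k ^ 5 := by ring
  have e2 : (2 * k) ^ 2 / 2 = 2 * k ^ 2 := by ring
  rw [e2, e3, e4, e5]
  linarith

lemma real_key {k e f U V : ℝ} (hk : 2 ≤ k) (hef : e * f = 1) (he : 15 * k ≤ e ^ 2) (he0 : 0 < e)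
    (hf0 : 0 < f) (hU : 0 < U) (_hV : 0 ≤ V) (hVU : V ≤ U * (1 - 4 / (5 * k))) :
    0 ≤ e * U - f * V ∧ V * U * (e + f) ^ 2 ≤ (1 - 1 / (5 * k)) * (e * U - f * V) ^ 2 := by
  have hk0 : 0 < k := by linarith
  set q : ℝ := 1 / (5 * k) with hq
  have hq0 : 0 < q := by positivity
  have hq1 : q ≤ 1 / 10 := by
    rw [hq]
    apply one_div_le_one_div_of_le <;> linarith
  have h6 : 4 / (5 * k) = 4 * q := by rw [hq]; ring
  rw [h6] at hVU
  have hVU' : V ≤ U := by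
    refine hVU.trans ?_
    have : 0 ≤ U * (4 * q) := by positivity
    linarith
  have he30 : 30 ≤ e ^ 2 := by linarith
  have hf2 : f ^ 2 ≤ 1 / 30 := by
    have h1 : e ^ 2 * f ^ 2 = 1 := by rw [← mul_pow, hef, one_pow]
    have h2 : 30 * f ^ 2 ≤ e ^ 2 * f ^ 2 := by gcongr
    linarith
  have hfe : f ≤ e := by
    have h1 : f ^ 2 ≤ e ^ 2 := by linarith
    exact le_of_sq_le_sq h1 he0.le
  have h1 : (e - f) * U ≤ e * U - f * V := by
    have : f * V ≤ f * U := by gcongr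
    linarith
  have h0 : 0 ≤ (e - f) * U := mul_nonneg (by linarith) hU.le
  refine ⟨h0.trans h1, ?_⟩
  have h2 : ((e - f) * U) ^ 2 ≤ (e * U - f * V) ^ 2 := pow_le_pow_left₀ h0 h1 2
  have hs : (e + f) ^ 2 = e ^ 2 + 2 + f ^ 2 := by linear_combination 2 * hef
  have hd : (e - f) ^ 2 = e ^ 2 - 2 + f ^ 2 := by linear_combination (-2) * hef
  have h5 : 3 ≤ q * e ^ 2 := by
    have h7 : q * (15 * k) = 3 := by rw [hq]; field_simp; norm_num
    calc (3 : ℝ) = q * (15 * k) := h7.symm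
      _ ≤ q * e ^ 2 := by gcongr
  have h4 : (1 - 4 * q) * (e + f) ^ 2 ≤ (1 - q) * (e - f) ^ 2 := by
    rw [hs, hd]
    have h8 : 0 ≤ q * f ^ 2 := by positivity
    linarith
  have h3 : V * U * (e + f) ^ 2 ≤ (U * (1 - 4 * q)) * U * (e + f) ^ 2 := by
    gcongr
  calc V * U * (e + f) ^ 2 ≤ (U * (1 - 4 * q)) * U * (e + f) ^ 2 := h3
    _ = U ^ 2 * ((1 - 4 * q) * (e + f) ^ 2) := by ring
    _ ≤ U ^ 2 * ((1 - q) * (e - f) ^ 2) := by gcongr
    _ = (1 - q) * ((e - f) * U) ^ 2 := by ring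
    _ ≤ (1 - q) * (e * U - f * V) ^ 2 := by
        have : 0 ≤ 1 - q := by linarith
        gcongr

lemma uv_aux {k : ℝ} (hk : 2 ≤ k) :
    (k - 1) ^ 2 + k ^ 2 ≤ ((k + 1) ^ 2 + k ^ 2) * (1 - 4 / (5 * k)) := by
  have hk0 : 0 < k := by linarith
  have h1 : ((k + 1) ^ 2 + k ^ 2) * (4 / (5 * k)) ≤ 4 * k := by
    rw [mul_div_assoc', div_le_iff₀ (by positivity)]
    nlinarith
  linarith

/-- the radial estimate of `|C / D|` on the positive axis -/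
lemma radial_aux {k : ℝ} (hk : 2 ≤ k) :
    ‖fC ((1 + I) * k)‖ ^ 2 ≤ (1 - 1 / (5 * k)) * ‖fD ((1 + I) * k)‖ ^ 2 := by
  set r : ℂ := (1 + I) * k with hr
  have hk0 : 0 < k := by linarith
  have hr0 : r ≠ 0 := by
    rw [hr]
    refine mul_ne_zero ?_ (by exact_mod_cast hk0.ne')
    intro h
    have := congrArg Complex.re h
    simp at this
  have hre : r.re = k := by rw [hr]; simp
  have him : r.im = k := by rw [hr]; simp
  have hAn : ‖exp (-(r * I))‖ = Real.exp k := by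
    rw [norm_exp]; simp [him]
  have hBn : ‖exp (r * I)‖ = (Real.exp k)⁻¹ := by
    rw [norm_exp, ← Real.exp_neg]; simp [him]
  have hD : 4 * r * fD r = exp (-(r * I)) * (r + 1) ^ 2 - exp (r * I) * (r - 1) ^ 2 := by
    unfold fD
    rw [Complex.cos, Complex.sin, neg_mul]
    generalize exp (-(r * I)) = A
    generalize exp (r * I) = B
    field_simp
    ring_nf
    simp only [I_sq]
    ring
  have hC : 4 * r * fC r = (r - 1) * (r + 1) * (exp (r * I) - exp (-(r * I))) := by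
    unfold fC
    rw [Complex.sin, neg_mul]
    generalize exp (-(r * I)) = A
    generalize exp (r * I) = B
    field_simp
    ring_nf
    simp only [I_sq]
    ring
  have hu2 : ‖r + 1‖ ^ 2 = (k + 1) ^ 2 + k ^ 2 := by
    rw [Complex.sq_norm, Complex.normSq_apply]
    simp only [add_re, add_im, one_re, one_im, hre, him]
    ring
  have hv2 : ‖r - 1‖ ^ 2 = (k - 1) ^ 2 + k ^ 2 := by
    rw [Complex.sq_norm, Complex.normSq_apply]
    simp only [sub_re, sub_im, one_re, one_im, hre, him]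
    ring
  have he0 : 0 < Real.exp k := Real.exp_pos _
  have hCn : ‖4 * r‖ * ‖fC r‖ ≤ ‖r - 1‖ * ‖r + 1‖ * (Real.exp k + (Real.exp k)⁻¹) := by
    rw [← norm_mul, hC, norm_mul, norm_mul]
    have : ‖exp (r * I) - exp (-(r * I))‖ ≤ Real.exp k + (Real.exp k)⁻¹ := by
      refine (norm_sub_le _ _).trans ?_
      rw [hBn, hAn]; linarith
    gcongr
  have hDn : Real.exp k * ‖r + 1‖ ^ 2 - (Real.exp k)⁻¹ * ‖r - 1‖ ^ 2 ≤ ‖4 * r‖ * ‖fD r‖ := by
    rw [← norm_mul, hD]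
    have := norm_sub_norm_le (exp (-(r * I)) * (r + 1) ^ 2) (exp (r * I) * (r - 1) ^ 2)
    rw [norm_mul, norm_mul, norm_pow, norm_pow, hAn, hBn] at this
    exact this
  have hkey := real_key (k := k) (e := Real.exp k) (f := (Real.exp k)⁻¹) (U := ‖r + 1‖ ^ 2)
    (V := ‖r - 1‖ ^ 2) hk (mul_inv_cancel₀ he0.ne') (exp_ge_aux hk) he0 (inv_pos.2 he0)
    (by rw [hu2]; positivity) (by positivity) (by rw [hu2, hv2]; exact uv_aux hk)
  obtain ⟨hpos, hkey⟩ := hkey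
  have hk5 : 0 ≤ 1 - 1 / (5 * k) := by
    have : 1 / (5 * k) ≤ 1 := by
      rw [div_le_one (by positivity)]; linarith
    linarith
  have hfin : (‖4 * r‖ * ‖fC r‖) ^ 2 ≤ (1 - 1 / (5 * k)) * (‖4 * r‖ * ‖fD r‖) ^ 2 := by
    calc (‖4 * r‖ * ‖fC r‖) ^ 2
        ≤ (‖r - 1‖ * ‖r + 1‖ * (Real.exp k + (Real.exp k)⁻¹)) ^ 2 := by gcongr
      _ = ‖r - 1‖ ^ 2 * ‖r + 1‖ ^ 2 * (Real.exp k + (Real.exp k)⁻¹) ^ 2 := by ring
      _ ≤ (1 - 1 / (5 * k)) * (Real.exp k * ‖r + 1‖ ^ 2 - (Real.exp k)⁻¹ * ‖r - 1‖ ^ 2) ^ 2 := hkey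
      _ ≤ _ := by gcongr
  have h4r2 : 0 < ‖4 * r‖ ^ 2 := by
    have : 0 < ‖4 * r‖ := norm_pos_iff.2 (mul_ne_zero (by norm_num) hr0)
    positivity
  have h : ‖4 * r‖ ^ 2 * ‖fC r‖ ^ 2 ≤ ‖4 * r‖ ^ 2 * ((1 - 1 / (5 * k)) * ‖fD r‖ ^ 2) := by
    calc ‖4 * r‖ ^ 2 * ‖fC r‖ ^ 2 = (‖4 * r‖ * ‖fC r‖) ^ 2 := by ring
      _ ≤ _ := hfin
      _ = _ := by ring
  exact le_of_mul_le_mul_left h h4r2

end Pool.Agent.Y266.AC
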