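import Mathlib
import Pool.Agent.Y266.AC.Disc
import Pool.Agent.Y266.AC.Radial
import Pool.Agent.Y266.AC.Meas

/-!
# The scalar functions: behaviour at the point `1`, non-triviality
-/

noncomputable section

open Complex Set Filter Topology Metric MeasureTheory
open scoped Real

namespace Pool.Agent.Y266.AC

lemma rr_real {s : ℝ} (hs : s ∈ Ioo (0 : ℝ) 1) :
    rr (s : ℂ) = (1 + I) * ((√2 / 2 * √((1 + s) / (1 - s)) : ℝ) : ℂ) := by
  have h1 : 0 < 1 - s := by linarith [hs.2]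
  have h2 : 0 ≤ (1 + s) / (1 - s) := by
    have := hs.1
    positivity
  have hp : pp (s : ℂ) = (((1 + s) / (1 - s) : ℝ) : ℂ) := by
    unfold pp; push_cast; rfl
  unfold rr
  rw [hp]
  have h3 : (((1 + s) / (1 - s) : ℝ) : ℂ) ^ (((2 : ℕ) : ℂ)⁻¹) =
      ((√((1 + s) / (1 - s)) : ℝ) : ℂ) := by
    rw [Real.sqrt_eq_rpow, Complex.ofReal_cpow h2]
    congr 1
    push_cast
    norm_num
  rw [h3, Complex.exp_mul_I, ← Complex.ofReal_cos, ← Complex.ofReal_sin, Real.cos_pi_div_four,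
    Real.sin_pi_div_four]
  push_cast
  ring

lemma dd_real {s : ℝ} (hs : s ∈ Ioo (0 : ℝ) 1) : (s : ℂ) ∈ ball (0 : ℂ) 1 := by
  rw [mem_ball_zero_iff, Complex.norm_real, Real.norm_of_nonneg hs.1.le]
  exact hs.2

lemma fD_pos {z : ℂ} (hz : z ∈ dd) : 0 < ‖fD (rr z)‖ := by
  have h := DC_ge hz
  have h1 : 0 < ‖fD (rr z)‖ ^ 2 := by nlinarith [sq_nonneg ‖fC (rr z)‖]
  exact lt_of_le_of_ne (norm_nonneg _) (fun h2 => by rw [← h2] at h1; norm_num at h1)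

lemma xx_lt {z : ℂ} (hz : z ∈ dd) : ‖xx z‖ < 1 := by
  have h := AA_sq_le hz
  have h1 : 0 < ‖AA z‖ := norm_pos_iff.2 (AA_ne hz)
  have h2 : ‖xx z‖ ^ 2 < 1 := by nlinarith [mul_pos h1 h1]
  nlinarith [norm_nonneg (xx z)]

lemma rad_bound {s : ℝ} (hs : s ∈ Ioo (0 : ℝ) 1) (h8 : 8 ≤ (1 + s) / (1 - s)) :
    (1 - s) / (1 - ‖xx (s : ℂ)‖) ≤ 40 * ‖D0‖ ^ 2 * √(1 - s) := by
  have h1 : 0 < 1 - s := by linarith [hs.2]
  have hz : (s : ℂ) ∈ dd := ball_sub_dd (dd_real hs)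
  set y : ℝ := (1 + s) / (1 - s) with hy
  set k : ℝ := √2 / 2 * √y with hk
  have hk2 : k ^ 2 = y / 2 := by
    rw [hk, mul_pow, div_pow, Real.sq_sqrt (by norm_num), Real.sq_sqrt (by linarith)]
    ring
  have hk0 : 0 ≤ k := by positivity
  have hkge : 2 ≤ k := by nlinarith
  have hrr := rr_real hs
  rw [← hy, ← hk] at hrr
  have hrad := radial_aux hkge
  rw [← hrr] at hrad
  have hD := fD_pos hz
  have h3 := one_sub_xx hz
  have hQ := QQ_le hz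
  have hQ0 : 0 < ‖QQ (s : ℂ)‖ := norm_pos_iff.2 (QQ_ne hz)
  have hD0 := D0_ge
  have hkap := kap_ge
  have hkpos : 0 < k := by linarith
  have h4 : 1 / (20 * k * ‖D0‖ ^ 2) ≤ 1 - ‖xx (s : ℂ)‖ ^ 2 := by
    rw [h3, div_le_div_iff₀ (by positivity) (by positivity)]
    have h5 : ‖fD (rr (s : ℂ))‖ ^ 2 * (1 / (5 * k)) ≤
        ‖fD (rr (s : ℂ))‖ ^ 2 - ‖fC (rr (s : ℂ))‖ ^ 2 := by linarith
    have h6 : 1 ≤ kap ^ 2 := by nlinarith
    have h7 : ‖QQ (s : ℂ)‖ ^ 2 ≤ (2 * ‖D0‖ * ‖fD (rr (s : ℂ))‖) ^ 2 := by gcongr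
    have h8 : 0 ≤ ‖fD (rr (s : ℂ))‖ ^ 2 * (1 / (5 * k)) := by positivity
    calc 1 * ‖QQ (s : ℂ)‖ ^ 2 ≤ (2 * ‖D0‖ * ‖fD (rr (s : ℂ))‖) ^ 2 := by rw [one_mul]; exact h7
      _ = 1 * (‖fD (rr (s : ℂ))‖ ^ 2 * (1 / (5 * k))) * (20 * k * ‖D0‖ ^ 2) := by
          field_simp
          ring
      _ ≤ kap ^ 2 * (‖fD (rr (s : ℂ))‖ ^ 2 - ‖fC (rr (s : ℂ))‖ ^ 2) * (20 * k * ‖D0‖ ^ 2) := by
          gcongr
  have hx1 := xx_lt hz
  have h5 : 1 / (40 * k * ‖D0‖ ^ 2) ≤ 1 - ‖xx (s : ℂ)‖ := by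
    have h6 : 1 / (40 * k * ‖D0‖ ^ 2) = 1 / (20 * k * ‖D0‖ ^ 2) / 2 := by
      field_simp; ring
    rw [h6]
    nlinarith [norm_nonneg (xx (s : ℂ))]
  have hkb : k * √(1 - s) ≤ 1 := by
    have h7 : (k * √(1 - s)) ^ 2 ≤ 1 ^ 2 := by
      rw [mul_pow, hk2, Real.sq_sqrt h1.le, hy]
      have : (1 + s) / (1 - s) / 2 * (1 - s) = (1 + s) / 2 := by field_simp
      rw [this]
      linarith [hs.2]
    exact le_of_sq_le_sq h7 (by norm_num)
  have hx2 : 0 < 1 - ‖xx (s : ℂ)‖ := by linarith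
  rw [div_le_iff₀ hx2]
  have h9 : 0 ≤ 40 * ‖D0‖ ^ 2 * √(1 - s) := by positivity
  calc (1 - s) = √(1 - s) * √(1 - s) := (Real.mul_self_sqrt h1.le).symm
    _ = (40 * ‖D0‖ ^ 2 * √(1 - s)) * ((k * √(1 - s)) * (1 / (40 * k * ‖D0‖ ^ 2))) := by
        have : 0 < ‖D0‖ := by linarith
        field_simp
    _ ≤ (40 * ‖D0‖ ^ 2 * √(1 - s)) * (1 * (1 - ‖xx (s : ℂ)‖)) := by
        gcongr
    _ = _ := by ring

lemma rad_tendsto : Tendsto (fun s : ℝ => (1 - s) / (1 - ‖xx (s : ℂ)‖)) (𝓝[<] 1) (𝓝 0) := by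
  have h1 : Tendsto (fun s : ℝ => 40 * ‖D0‖ ^ 2 * √(1 - s)) (𝓝[<] 1) (𝓝 0) := by
    have h : Continuous (fun s : ℝ => 40 * ‖D0‖ ^ 2 * √(1 - s)) := by fun_prop
    have h2 := h.tendsto 1
    simp only [sub_self, Real.sqrt_zero, mul_zero] at h2
    exact h2.mono_left nhdsWithin_le_nhds
  refine tendsto_of_tendsto_of_tendsto_of_le_of_le' tendsto_const_nhds h1 ?_ ?_
  · filter_upwards [eventually_Ioo] with s hs
    have h2 := xx_lt (ball_sub_dd (dd_real hs))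
    exact div_nonneg (by linarith [hs.2]) (by linarith)
  · have hev : ∀ᶠ s : ℝ in 𝓝[<] (1 : ℝ), s ∈ Ioo (7 / 9 : ℝ) 1 := Ioo_mem_nhdsLT (by norm_num)
    filter_upwards [eventually_Ioo, hev] with s hs hs2
    refine rad_bound hs ?_
    have : 0 < 1 - s := by linarith [hs.2]
    rw [le_div_iff₀ this]
    linarith [hs2.1]

/-- the decreasing majorant of `2 / (1 - |χ|)` -/
def Phi (x : ℝ) : ℝ := 4 * Real.exp (2 * Real.log (4 * ‖D0‖) + 8 / √x)

lemma Phi_anti (x y : ℝ) (hx : 0 < x) (hxy : x ≤ y) : Phi y ≤ Phi x := by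
  unfold Phi
  have : √x ≤ √y := Real.sqrt_le_sqrt hxy
  have h0 : 0 < √x := Real.sqrt_pos.2 hx
  gcongr

lemma le_Phi {z : ℂ} (hz : z ∈ ball (0 : ℂ) 1) : 2 / (1 - ‖xx z‖) ≤ Phi ‖1 - z‖ := by
  have hd := ball_sub_dd hz
  have h1 := xx_lt hd
  have h2 := AA_sq_le hd
  have h3 := AA_log hd
  have h4 : 0 < ‖AA z‖ := norm_pos_iff.2 (AA_ne hd)
  have h5 : Real.exp (-(2 * Real.log (4 * ‖D0‖) + 8 / √‖1 - z‖)) ≤ ‖AA z‖ ^ 2 := by
    have h6 : ‖AA z‖ ^ 2 = Real.exp (2 * Real.log ‖AA z‖) := by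
      rw [two_mul, Real.exp_add, Real.exp_log h4]; ring
    rw [h6]
    apply Real.exp_le_exp.2
    have : 8 / √‖1 - z‖ = 2 * (4 / √‖1 - z‖) := by ring
    rw [this]
    linarith
  have h6 : Real.exp (-(2 * Real.log (4 * ‖D0‖) + 8 / √‖1 - z‖)) / 2 ≤ 1 - ‖xx z‖ := by
    nlinarith [norm_nonneg (xx z)]
  unfold Phi
  rw [Real.exp_neg] at h6
  set e : ℝ := Real.exp (2 * Real.log (4 * ‖D0‖) + 8 / √‖1 - z‖) with he
  have he0 : 0 < e := Real.exp_pos _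
  rw [div_le_iff₀ (by linarith)]
  calc (2 : ℝ) = 4 * e * (e⁻¹ / 2) := by field_simp; norm_num
    _ ≤ 4 * e * (1 - ‖xx z‖) := by gcongr

lemma ae_dd : ∀ᵐ t ∂leb, ee t ∈ dd := by
  filter_upwards [ae_leb_Ioo, ae_leb_ne π] with t ht htp
  refine ⟨(ee_norm t).le, ?_, ?_⟩
  · intro h
    have h2 := norm_one_sub_ee t
    rw [h, sub_self, norm_zero] at h2
    have : 0 < Real.sin (t / 2) := Real.sin_pos_of_pos_of_lt_pi (by linarith [ht.1])
      (by linarith [ht.2])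
    have h3 : 0 < |Real.sin (t / 2)| := abs_pos.2 this.ne'
    linarith
  · intro h
    have h2 : (ee t).re = Real.cos t := by
      unfold ee
      rw [Complex.exp_ofReal_mul_I_re]
    rw [h] at h2
    simp only [neg_re, one_re] at h2
    have h3 : Real.cos (t - π) = 1 := by
      rw [Real.cos_sub_pi, ← h2]; norm_num
    have h4 := (Real.cos_eq_one_iff_of_lt_of_lt (x := t - π) (by linarith [ht.1, Real.pi_pos])
      (by linarith [ht.2, Real.pi_pos])).1 h3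
    exact htp (by linarith)

lemma D0_pos : 0 < ‖D0‖ := by linarith [D0_ge]

lemma AA_log_abs {z : ℂ} (hz : z ∈ ball (0 : ℂ) 1) :
    |Real.log ‖AA z‖| ≤ (|Real.log (4 * ‖D0‖)| + 4) + (|Real.log (4 * ‖D0‖)| + 4) / √‖1 - z‖ := by
  have hd := ball_sub_dd hz
  have h1 := AA_log hd
  have h2 := AA_le hd
  have h3 : Real.log ‖AA z‖ ≤ 0 := Real.log_nonpos (norm_nonneg _) h2
  rw [abs_of_nonpos h3]
  have h4 := le_abs_self (Real.log (4 * ‖D0‖))
  have h5 : 4 / √‖1 - z‖ ≤ (|Real.log (4 * ‖D0‖)| + 4) / √‖1 - z‖ := by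
    have := abs_nonneg (Real.log (4 * ‖D0‖))
    gcongr
    linarith
  linarith

lemma AA_outer : Integrable (fun t => Real.log ‖AA (ee t)‖) leb ∧
    ∀ z ∈ ball (0 : ℂ) 1, AA z = Complex.exp ((2 * π : ℂ)⁻¹ *
        ∫ t, (ee t + z) / (ee t - z) * (Real.log ‖AA (ee t)‖ : ℂ) ∂leb) := by
  refine outer_formula AA (|Real.log (4 * ‖D0‖)| + 4) (1 / kap) ?_ ?_ ?_ ?_ ?_ AA_zero
  · intro z hz
    exact (AA_diff (ball_sub_dd hz)).differentiableWithinAt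
  · intro z hz
    exact AA_ne (ball_sub_dd hz)
  · filter_upwards [ae_dd] with t ht
    exact ⟨(AA_diff ht).continuousAt, AA_ne ht⟩
  · intro z hz
    exact AA_log_abs hz
  · have := kap_ge
    positivity

lemma FF_fourier (n : ℕ) (hn : 1 ≤ n) : ∫ t, (ee t) ^ n * FF (ee t) ∂leb = 0 := by
  refine fourier_zero FF _ ?_ (fun z hz => FF_le (ball_sub_dd hz)) ?_ n hn
  · intro z hz
    exact (FF_diff (ball_sub_dd hz)).differentiableWithinAt
  · filter_upwards [ae_dd] with t ht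
    exact (FF_diff ht).continuousAt

lemma C0_ne : C0 ≠ 0 := by
  unfold C0 fC
  have hsq : (rr 0) ^ 2 = I := by
    rw [rr_sq]; simp [pp]
  have hr0 := rr_ne_zero dd_zero
  rw [hsq]
  refine mul_ne_zero (mul_ne_zero (by simp) ?_) (div_ne_zero ?_ hr0)
  · intro h
    have := congrArg Complex.im h
    simp at this
  · intro h
    obtain ⟨k, hk⟩ := Complex.sin_eq_zero_iff.1 h
    rw [hk] at hsq
    have := congrArg Complex.im hsq
    have h2 : ((k : ℂ) * π) ^ 2 = (((k : ℝ) * π) ^ 2 : ℝ) := by push_cast; ring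
    rw [h2] at this
    simp only [ofReal_im, I_im] at this
    norm_num at this

/-- `χ` is not identically zero -/
lemma exists_xx_ne : ∃ z ∈ ball (0 : ℂ) 1, xx z ≠ 0 := by
  by_contra hcon
  push Not at hcon
  -- the boundary point with `r = ± π`
  set p : ℂ := -(I * (π : ℂ) ^ 2) with hp
  have hp1 : p + 1 ≠ 0 := by
    intro h
    have := congrArg Complex.re h
    have h3 : (I * (π : ℂ) ^ 2).re = 0 := by
      have : (π : ℂ) ^ 2 = ((π ^ 2 : ℝ) : ℂ) := by push_cast; rfl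
      rw [this, Complex.I_mul_re, Complex.ofReal_im, neg_zero]
    rw [hp] at this
    simp only [add_re, neg_re, h3, one_re, zero_re] at this
    norm_num at this
  have hp0 : p ≠ 0 := by
    rw [hp]
    refine neg_ne_zero.2 (mul_ne_zero I_ne_zero (pow_ne_zero _ ?_))
    exact_mod_cast Real.pi_ne_zero
  set ζ : ℂ := (p - 1) / (p + 1) with hζ
  have hζn : ‖ζ‖ = 1 := by
    rw [hζ, norm_div]
    have h1 : ‖p - 1‖ = ‖p + 1‖ := by
      have hpr : p = ((-(π ^ 2) : ℝ) : ℂ) * I := by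
        rw [hp]; push_cast; ring
      have hgen : ∀ q : ℝ, ‖(q : ℂ) * I - 1‖ ^ 2 = ‖(q : ℂ) * I + 1‖ ^ 2 := by
        intro q
        rw [Complex.sq_norm, Complex.sq_norm, Complex.normSq_apply, Complex.normSq_apply]
        simp
      have h2 : ‖p - 1‖ ^ 2 = ‖p + 1‖ ^ 2 := by
        rw [hpr]
        exact hgen _
      exact (sq_eq_sq₀ (norm_nonneg _) (norm_nonneg _)).1 h2
    rw [h1, div_self (norm_ne_zero_iff.2 hp1)]
  have h2z : 1 - ζ = 2 / (p + 1) := by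
    rw [hζ]; field_simp; ring
  have h2z' : 1 + ζ = 2 * p / (p + 1) := by
    rw [hζ]; field_simp; ring
  have hpp : pp ζ = p := by
    unfold pp
    rw [h2z, h2z']
    field_simp
  have hζd : ζ ∈ dd := by
    refine ⟨hζn.le, ?_, ?_⟩
    · intro h
      rw [h, sub_self] at h2z
      exact (div_ne_zero two_ne_zero hp1) h2z.symm
    · intro h
      rw [h] at h2z'
      have : (2 * p / (p + 1)) = 0 := by rw [← h2z']; norm_num
      exact (div_ne_zero (mul_ne_zero two_ne_zero hp0) hp1) this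
  have hxζ : xx ζ = 0 := by
    have hlim : Tendsto (fun R : ℝ => xx ((R : ℂ) * ζ)) (𝓝[<] 1) (𝓝 (xx ζ)) :=
      (xx_diff hζd).continuousAt.tendsto.comp (radial_tendsto ζ)
    refine tendsto_nhds_unique hlim (tendsto_const_nhds.congr' ?_)
    filter_upwards [eventually_Ioo] with R hR
    refine (hcon _ ?_).symm
    rw [mem_ball_zero_iff, norm_mul, hζn, mul_one, Complex.norm_real,
      Real.norm_of_nonneg hR.1.le]
    exact hR.2
  have hP : PP ζ = 0 := by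
    unfold xx at hxζ
    rcases div_eq_zero_iff.1 hxζ with h | h
    · exact h
    · exact absurd h (QQ_ne hζd)
  have hrsq : (rr ζ) ^ 2 = (π : ℂ) ^ 2 := by
    rw [rr_sq, hpp, hp]
    linear_combination (-(π : ℂ) ^ 2) * I_sq
  have hsin : sin (rr ζ) = 0 ∧ cos (rr ζ) = -1 := by
    rcases sq_eq_sq_iff_eq_or_eq_neg.1 hrsq with h | h
    · rw [h]; exact ⟨Complex.sin_pi, Complex.cos_pi⟩
    · rw [h, Complex.sin_neg, Complex.cos_neg]
      exact ⟨by rw [Complex.sin_pi, neg_zero], Complex.cos_pi⟩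
  unfold PP fC fD at hP
  rw [hsin.1, hsin.2] at hP
  simp only [zero_div, mul_zero, sub_zero, zero_sub, mul_neg, mul_one, neg_neg] at hP
  exact C0_ne hP

end Pool.Agent.Y266.AC
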