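import Mathlib
import Pool.Agent.Y266.AC.Scal

/-!
# The counterexample in the operator setting
-/

noncomputable section

open MeasureTheory Set Filter Topology Metric
open scoped InnerProductSpace Real ENNReal

namespace Pool.Agent.Y266.AC

section Gen

variable {N M : Type*} [NormedAddCommGroup N] [InnerProductSpace ℂ N] [FiniteDimensional ℂ N]
  [NormedAddCommGroup M] [InnerProductSpace ℂ M] [FiniteDimensional ℂ M]

lemma exists_isometry (h : Module.finrank ℂ N ≤ Module.finrank ℂ M) :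
    ∃ K : N →L[ℂ] M, (ContinuousLinearMap.adjoint K).comp K = 1 := by
  set bN := stdOrthonormalBasis ℂ N
  set bM := stdOrthonormalBasis ℂ M
  set f : N →ₗ[ℂ] M := bN.toBasis.constr ℂ (fun i => bM (Fin.castLE h i)) with hf
  have h1 : Orthonormal ℂ (bN.toBasis : _ → N) := by
    rw [OrthonormalBasis.coe_toBasis]; exact bN.orthonormal
  have h2 : Orthonormal ℂ (f ∘ bN.toBasis) := by
    have : (f ∘ bN.toBasis : _ → M) = bM ∘ (Fin.castLE h) := by
      funext i
      simp only [Function.comp_apply, hf]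
      rw [Module.Basis.constr_basis]
    rw [this]
    exact bM.orthonormal.comp _ (Fin.castLE_injective h)
  refine ⟨(f.isometryOfOrthonormal h1 h2).toContinuousLinearMap, ?_⟩
  rw [← ContinuousLinearMap.norm_map_iff_adjoint_comp_self]
  intro x
  exact (f.isometryOfOrthonormal h1 h2).norm_map x

lemma det_comm (f : N →ₗ[ℂ] M) (g : M →ₗ[ℂ] N) :
    LinearMap.det (1 + f ∘ₗ g : M →ₗ[ℂ] M) = LinearMap.det (1 + g ∘ₗ f : N →ₗ[ℂ] N) := by
  classical
  set bN := (stdOrthonormalBasis ℂ N).toBasis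
  set bM := (stdOrthonormalBasis ℂ M).toBasis
  rw [← LinearMap.det_toMatrix bN, ← LinearMap.det_toMatrix bM, map_add, map_add,
    LinearMap.toMatrix_one, LinearMap.toMatrix_one, LinearMap.toMatrix_comp bM bN bM,
    LinearMap.toMatrix_comp bN bM bN, Matrix.det_one_add_mul_comm]

variable (K : N →L[ℂ] M) (hK : (ContinuousLinearMap.adjoint K).comp K = 1)

/-- the projection `K K*` -/
def PK (K : N →L[ℂ] M) : M →L[ℂ] M := K.comp (ContinuousLinearMap.adjoint K)

include hK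

lemma K_apply (x : N) : ContinuousLinearMap.adjoint K (K x) = x := by
  have := congrArg (fun T : N →L[ℂ] N => T x) hK
  simpa using this

lemma PK_K : (PK K).comp K = K := by
  ext x
  simp [PK, K_apply K hK]

lemma K_PK : (ContinuousLinearMap.adjoint K).comp (PK K) = ContinuousLinearMap.adjoint K := by
  ext x
  simp [PK, K_apply K hK]

lemma PK_sq : (PK K) * (PK K) = PK K := by
  ext x
  simp [PK, K_apply K hK]

omit hK in
lemma PK_adj : ContinuousLinearMap.adjoint (PK K) = PK K := by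
  unfold PK
  rw [ContinuousLinearMap.adjoint_comp, ContinuousLinearMap.adjoint_adjoint]

omit hK in
lemma adj_UK (β : ℂ) : ContinuousLinearMap.adjoint (1 + (β - 1) • PK K) =
    1 + ((starRingEnd ℂ) β - 1) • PK K := by
  have h1 : ContinuousLinearMap.adjoint (1 : M →L[ℂ] M) = 1 := by
    rw [← ContinuousLinearMap.star_eq_adjoint, star_one]
  rw [map_add, map_smulₛₗ, PK_adj, h1, map_sub, map_one (starRingEnd ℂ)]

lemma K_norm (x : N) : ‖K x‖ = ‖x‖ :=
  (ContinuousLinearMap.norm_map_iff_adjoint_comp_self K).2 hK x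

lemma K_norm_le : ‖K‖ ≤ 1 :=
  ContinuousLinearMap.opNorm_le_bound _ zero_le_one (fun x => by rw [K_norm K hK, one_mul])

lemma Ka_norm_le : ‖ContinuousLinearMap.adjoint K‖ ≤ 1 := by
  rw [LinearIsometryEquiv.norm_map]
  exact K_norm_le K hK

lemma det_UK (β : ℂ) : LinearMap.det ((1 + (β - 1) • PK K : M →L[ℂ] M) : M →ₗ[ℂ] M) =
    β ^ (Module.finrank ℂ N) := by
  have h1 : ((1 + (β - 1) • PK K : M →L[ℂ] M) : M →ₗ[ℂ] M) =
      1 + ((β - 1) • (K : N →ₗ[ℂ] M)) ∘ₗ ((ContinuousLinearMap.adjoint K : M →L[ℂ] N) : M →ₗ[ℂ] N) := by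
    ext x
    simp [PK]
  have h2 : (1 + ((ContinuousLinearMap.adjoint K : M →L[ℂ] N) : M →ₗ[ℂ] N) ∘ₗ
      ((β - 1) • (K : N →ₗ[ℂ] M)) : N →ₗ[ℂ] N) = β • (1 : N →ₗ[ℂ] N) := by
    ext x
    simp only [LinearMap.add_apply, Module.End.one_apply, LinearMap.comp_apply,
      LinearMap.smul_apply, ContinuousLinearMap.coe_coe, map_smul, K_apply K hK]
    rw [sub_smul, one_smul]
    abel
  rw [h1, det_comm, h2, LinearMap.det_smul, map_one, mul_one]

lemma det_UK' (β : ℂ) : (1 + (β - 1) • PK K : M →L[ℂ] M).det = β ^ (Module.finrank ℂ N) :=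
  det_UK K hK β

omit hK in
lemma det_smul_one (β : ℂ) : (β • (1 : N →L[ℂ] N) : N →L[ℂ] N).det =
    β ^ (Module.finrank ℂ N) := by
  change LinearMap.det ((β • (1 : N →L[ℂ] N) : N →L[ℂ] N) : N →ₗ[ℂ] N) = _
  have h1 : ((β • (1 : N →L[ℂ] N) : N →L[ℂ] N) : N →ₗ[ℂ] N) = β • (1 : N →ₗ[ℂ] N) := by
    ext x; simp
  rw [h1, LinearMap.det_smul, map_one, mul_one]

lemma UK_norm_le {β : ℂ} (hβ : ‖β‖ ≤ 1) : ‖(1 + (β - 1) • PK K : M →L[ℂ] M)‖ ≤ 1 := by
  refine ContinuousLinearMap.opNorm_le_bound _ zero_le_one (fun x => ?_)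
  rw [one_mul]
  set v : N := ContinuousLinearMap.adjoint K x with hv
  have h1 : (1 + (β - 1) • PK K : M →L[ℂ] M) x = (x - K v) + K (β • v) := by
    have h0 : (1 + (β - 1) • PK K : M →L[ℂ] M) x = x + (β - 1) • K v := rfl
    rw [h0, map_smul]
    module
  have horth : ∀ y : N, ⟪x - K v, K y⟫_ℂ = 0 := by
    intro y
    rw [← ContinuousLinearMap.adjoint_inner_left, map_sub, K_apply K hK, ← hv, sub_self,
      inner_zero_left]
  have h2 := norm_add_sq_eq_norm_sq_add_norm_sq_of_inner_eq_zero (x - K v) (K (β • v))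
    (horth _)
  have h3 := norm_add_sq_eq_norm_sq_add_norm_sq_of_inner_eq_zero (x - K v) (K v)
    (horth _)
  rw [sub_add_cancel] at h3
  rw [K_norm K hK] at h2 h3
  rw [norm_smul] at h2
  rw [h1]
  have h4 : ‖β‖ * ‖v‖ ≤ ‖v‖ := by
    have := norm_nonneg v
    nlinarith
  have h5 : ‖β‖ * ‖v‖ * (‖β‖ * ‖v‖) ≤ ‖v‖ * ‖v‖ := by gcongr
  nlinarith [norm_nonneg x, norm_nonneg (x - K v + K (β • v))]

end Gen

section Final

variable {N M : Type*} [NormedAddCommGroup N] [InnerProductSpace ℂ N] [FiniteDimensional ℂ N]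
  [NormedAddCommGroup M] [InnerProductSpace ℂ M] [FiniteDimensional ℂ M]

lemma isBdry_of_continuousAt {G : Type*} [TopologicalSpace G] (h : ℂ → G)
    (hc : ∀ᵐ t ∂leb, ContinuousAt h (ee t)) : IsBdry h (fun t => h (ee t)) := by
  filter_upwards [hc] with t ht
  exact ht.tendsto.comp (radial_tendsto (ee t))

/-- outerness from a determinant which is a power of `AA` -/
lemma scalarOuter_of_det {E : Type*} [NormedAddCommGroup E] [InnerProductSpace ℂ E]
    [CompleteSpace E] (h : ℂ → (E →L[ℂ] E)) (n : ℕ)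
    (hdet : ∀ z, (h z).det = (AA z) ^ n) :
    ScalarOuter (fun z => (h z).det) (fun t => (h (ee t)).det) := by
  refine ⟨?_, ?_, 1, norm_one, ?_⟩
  · filter_upwards [ae_dd] with t ht
    rw [hdet]
    exact pow_ne_zero _ (AA_ne ht)
  · simp_rw [hdet, norm_pow, Real.log_pow]
    exact AA_outer.1.const_mul _
  · intro z hz
    simp_rw [hdet, norm_pow, Real.log_pow]
    rw [AA_outer.2 z hz, ← Complex.exp_nat_mul, one_mul]
    congr 1
    rw [mul_left_comm, ← integral_const_mul]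
    congr 2
    funext t
    push_cast
    ring

lemma single_norm {E : Type*} [NormedAddCommGroup E] [InnerProductSpace ℂ E] [CompleteSpace E]
    (k : ℕ) (x : E) : ‖single k x‖ = ‖x‖ := by
  have h : ‖lp.single (E := fun _ : ℕ => E) 2 k x‖ = ‖x‖ :=
    lp.norm_single (E := fun _ : ℕ => E) (p := 2) (by norm_num) k x
  exact h

lemma compr_single {E : Type*} [NormedAddCommGroup E] [InnerProductSpace ℂ E] [CompleteSpace E] :
    compr (single (N := E) 0) (1 : L2 E →L[ℂ] L2 E) = 1 := by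
  have h := (ContinuousLinearMap.norm_map_iff_adjoint_comp_self (single (N := E) 0)).1
    (fun x => single_norm 0 x)
  exact h

lemma resolv_zero {E F : Type*} [NormedAddCommGroup E] [InnerProductSpace ℂ E] [CompleteSpace E]
    [NormedAddCommGroup F] [InnerProductSpace ℂ F] [CompleteSpace F] (ρ : ℝ) :
    resolv (0 : E →L[ℂ] F) ρ = 1 := by
  unfold resolv defR inv
  rw [smul_zero, ContinuousLinearMap.comp_zero, sub_zero]
  exact Ring.inverse_one _

lemma Pplus_zero (z : ℂ) (ρ : ℝ) : Pplus (0 : L2 N →L[ℂ] L2 M) z ρ = id := by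
  funext ξ
  unfold Pplus normal
  rw [resolv_zero, compr_single]
  have h1 : sqrtInv (1 : N →L[ℂ] N) = 1 := by
    unfold sqrtInv inv
    rw [Ring.inverse_one, CFC.sqrt_one]
  rw [h1]
  change plus (single 0 ξ) z = ξ
  unfold plus
  rw [tsum_eq_single 0]
  · have : coord (single 0 ξ) 0 = ξ := lp.single_apply_self (E := fun _ : ℕ => N) 2 0 ξ
    rw [this, pow_zero, one_smul]
  · intro j hj
    have : coord (single 0 ξ) j = 0 := lp.single_apply_ne (E := fun _ : ℕ => N) 2 0 ξ hj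
    rw [this, smul_zero]

lemma qplus_zero (z : ℂ) (ρ : ℝ) (η : M) : qplus (0 : L2 N →L[ℂ] L2 M) z ρ η = 0 := by
  have h1 : adj (0 : L2 N →L[ℂ] L2 M) = 0 := by
    unfold adj
    exact map_zero _
  unfold qplus plus
  rw [h1]
  have h2 : ∀ j : ℕ, coord ((0 : L2 M →L[ℂ] L2 N)
      (normal (single 0) (resolv (0 : L2 M →L[ℂ] L2 N) ρ) η)) j = 0 := fun j => rfl
  simp_rw [h2]
  simp

/-- `χ = xx K*` -/
def chi (K : N →L[ℂ] M) (z : ℂ) : M →L[ℂ] N := xx z • ContinuousLinearMap.adjoint K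
/-- `a = AA I` -/
def aaN (N : Type*) [NormedAddCommGroup N] [InnerProductSpace ℂ N] (z : ℂ) : N →L[ℂ] N :=
  AA z • (1 : N →L[ℂ] N)
/-- `d = AA K K* + (I - K K*)` -/
def ddM (K : N →L[ℂ] M) (z : ℂ) : M →L[ℂ] M := 1 + (AA z - 1) • PK K

lemma classB_chi (K : N →L[ℂ] M) (hK : (ContinuousLinearMap.adjoint K).comp K = 1) :
    ClassB (chi K) := by
  refine ⟨fun z hz => ?_, fun z hz => ?_⟩
  · exact ((xx_diff (ball_sub_dd hz)).smul_const (ContinuousLinearMap.adjoint
      K)).differentiableWithinAt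
  · unfold chi
    rw [norm_smul]
    have h1 := (xx_lt (ball_sub_dd hz)).le
    have h2 := Ka_norm_le K hK
    calc ‖xx z‖ * ‖ContinuousLinearMap.adjoint K‖ ≤ 1 * 1 := by gcongr
      _ = 1 := one_mul 1

lemma chi_zero (K : N →L[ℂ] M) : chi K 0 = 0 := by
  unfold chi
  rw [xx_zero, zero_smul]

lemma adj_chi (K : N →L[ℂ] M) (z : ℂ) :
    ContinuousLinearMap.adjoint (chi K z) = (starRingEnd ℂ) (xx z) • K := by
  unfold chi
  rw [map_smulₛₗ, ContinuousLinearMap.adjoint_adjoint]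

lemma chi_chi (K : N →L[ℂ] M) (z : ℂ) : (ContinuousLinearMap.adjoint (chi K z)).comp (chi K z) =
    ((‖xx z‖ ^ 2 : ℝ) : ℂ) • PK K := by
  rw [adj_chi]
  unfold chi
  rw [ContinuousLinearMap.smul_comp, ContinuousLinearMap.comp_smul, smul_smul,
    Complex.conj_mul']
  push_cast
  rfl

lemma one_sub_chi (K : N →L[ℂ] M) : ∀ᵐ t ∂leb, defR (chi K (ee t)) =
    1 + (((‖AA (ee t)‖ ^ 2 : ℝ) : ℂ) - 1) • PK K := by
  filter_upwards [ae_dd] with t ht
  have h : defR (chi K (ee t)) =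
      1 - (ContinuousLinearMap.adjoint (chi K (ee t))).comp (chi K (ee t)) := rfl
  rw [h, chi_chi, AA_sq_eq ht (ee_norm t)]
  push_cast
  rw [show (1 - (‖xx (ee t)‖ : ℂ) ^ 2 - 1) = -((‖xx (ee t)‖ : ℂ) ^ 2) by ring, neg_smul]
  abel

lemma cont_AA : ∀ᵐ t ∂leb, ContinuousAt AA (ee t) := by
  filter_upwards [ae_dd] with t ht
  exact (AA_diff ht).continuousAt

lemma bdry_chi (K : N →L[ℂ] M) : IsBdry (chi K) (fun t => chi K (ee t)) := by
  apply isBdry_of_continuousAt
  filter_upwards [ae_dd] with t ht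
  exact (xx_diff ht).continuousAt.smul continuousAt_const

lemma bdry_a : IsBdry (aaN N) (fun t => aaN N (ee t)) := by
  apply isBdry_of_continuousAt
  filter_upwards [cont_AA] with t ht
  exact ht.smul continuousAt_const

lemma bdry_d (K : N →L[ℂ] M) : IsBdry (ddM K) (fun t => ddM K (ee t)) := by
  apply isBdry_of_continuousAt
  filter_upwards [cont_AA] with t ht
  exact continuousAt_const.add ((ht.sub continuousAt_const).smul continuousAt_const)

lemma kap_inv_pos : 0 < 1 / kap := by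
  have := kap_ge
  positivity

lemma kap_inv_le : 1 / kap ≤ 1 := by
  have := kap_ge
  rw [div_le_one (by linarith)]
  exact this

lemma classB_a : ClassB (aaN N) := by
  refine ⟨fun z hz => ?_, fun z hz => ?_⟩
  · exact ((AA_diff (ball_sub_dd hz)).smul_const (1 : N →L[ℂ] N)).differentiableWithinAt
  · unfold aaN
    rw [norm_smul]
    have h1 := AA_le (ball_sub_dd hz)
    have h2 : ‖(1 : N →L[ℂ] N)‖ ≤ 1 := ContinuousLinearMap.norm_id_le
    calc ‖AA z‖ * ‖(1 : N →L[ℂ] N)‖ ≤ 1 * 1 := by gcongr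
      _ = 1 := one_mul 1

lemma classB_d (K : N →L[ℂ] M) (hK : (ContinuousLinearMap.adjoint K).comp K = 1) :
    ClassB (ddM K) := by
  refine ⟨fun z hz => ?_, fun z hz => ?_⟩
  · exact ((((AA_diff (ball_sub_dd hz)).sub_const 1).smul_const (PK K)).const_add
      1).differentiableWithinAt
  · exact UK_norm_le K hK (AA_le (ball_sub_dd hz))

lemma pos_a : (aaN N 0).IsPositive := by
  unfold aaN
  rw [AA_zero]
  refine (ContinuousLinearMap.isPositive_one).smul_of_nonneg ?_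
  exact_mod_cast kap_inv_pos.le

lemma pos_d (K : N →L[ℂ] M) (hK : (ContinuousLinearMap.adjoint K).comp K = 1) :
    (ddM K 0).IsPositive := by
  unfold ddM
  rw [AA_zero, ContinuousLinearMap.isPositive_def]
  constructor
  · rw [← ContinuousLinearMap.isSelfAdjoint_iff_isSymmetric,
      ContinuousLinearMap.isSelfAdjoint_iff', adj_UK, Complex.conj_ofReal]
  · intro x
    have h1 : ContinuousLinearMap.reApplyInnerSelf
        (1 + ((((1 / kap : ℝ)) : ℂ) - 1) • PK K : M →L[ℂ] M) x =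
        ‖x‖ ^ 2 + (1 / kap - 1) * ‖ContinuousLinearMap.adjoint K x‖ ^ 2 := by
      rw [ContinuousLinearMap.reApplyInnerSelf_apply]
      simp only [PK, add_apply, one_apply_eq_self,
        smul_apply, ContinuousLinearMap.comp_apply]
      rw [inner_add_left, inner_smul_left, ← ContinuousLinearMap.adjoint_inner_right,
        inner_self_eq_norm_sq_to_K, inner_self_eq_norm_sq_to_K, map_sub, map_one,
        Complex.conj_ofReal]
      simp only [RCLike.re_eq_complex_re]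
      have h2 : ((‖x‖ : ℂ) ^ 2 + (((1 / kap : ℝ) : ℂ) - 1) *
          (‖ContinuousLinearMap.adjoint K x‖ : ℂ) ^ 2) =
          ((‖x‖ ^ 2 + (1 / kap - 1) * ‖ContinuousLinearMap.adjoint K x‖ ^ 2 : ℝ) : ℂ) := by
        push_cast
        ring
      exact (congrArg Complex.re h2).trans (Complex.ofReal_re _)
    rw [h1]
    have h2 : ‖ContinuousLinearMap.adjoint K x‖ ≤ ‖x‖ := by
      have := (ContinuousLinearMap.adjoint K).le_opNorm x
      have h3 := Ka_norm_le K hK
      nlinarith [norm_nonneg x]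
    have h3 : ‖ContinuousLinearMap.adjoint K x‖ ^ 2 ≤ ‖x‖ ^ 2 := by gcongr
    have h4 := kap_inv_pos
    nlinarith [sq_nonneg ‖ContinuousLinearMap.adjoint K x‖]

lemma fact_a (K : N →L[ℂ] M) (hK : (ContinuousLinearMap.adjoint K).comp K = 1) :
    ∀ᵐ t ∂leb, defL (chi K (ee t)) = (aaN N (ee t)).comp (adj (aaN N (ee t))) := by
  filter_upwards [ae_dd] with t ht
  have h0 : defL (chi K (ee t)) =
      1 - (chi K (ee t)).comp (ContinuousLinearMap.adjoint (chi K (ee t))) := rfl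
  have h0' : adj (aaN N (ee t)) = ContinuousLinearMap.adjoint (aaN N (ee t)) := rfl
  rw [h0, h0', adj_chi]
  unfold chi aaN
  rw [map_smulₛₗ]
  have h1 : ContinuousLinearMap.adjoint (1 : N →L[ℂ] N) = 1 := by
    rw [← ContinuousLinearMap.star_eq_adjoint, star_one]
  rw [h1, ContinuousLinearMap.smul_comp, ContinuousLinearMap.comp_smul,
    ContinuousLinearMap.smul_comp, ContinuousLinearMap.comp_smul, smul_smul, smul_smul,
    Complex.mul_conj', Complex.mul_conj', hK]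
  have h2 := AA_sq_eq ht (ee_norm t)
  have h3 : (‖AA (ee t)‖ : ℂ) ^ 2 = 1 - (‖xx (ee t)‖ : ℂ) ^ 2 := by exact_mod_cast h2
  rw [h3, sub_smul, one_smul]
  rfl

lemma fact_d (K : N →L[ℂ] M) (hK : (ContinuousLinearMap.adjoint K).comp K = 1) :
    ∀ᵐ t ∂leb, defR (chi K (ee t)) = (adj (ddM K (ee t))).comp (ddM K (ee t)) := by
  filter_upwards [one_sub_chi K] with t ht
  have h0' : (adj (ddM K (ee t))).comp (ddM K (ee t)) =
    ContinuousLinearMap.adjoint (ddM K (ee t)) * (ddM K (ee t)) := rfl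
  rw [ht, h0']
  unfold ddM
  rw [adj_UK, add_mul, mul_add, mul_add, one_mul, one_mul, mul_one, smul_mul_smul_comm,
    PK_sq K hK]
  have h3 : ((starRingEnd ℂ) (AA (ee t)) - 1) * (AA (ee t) - 1) =
      ((‖AA (ee t)‖ ^ 2 : ℝ) : ℂ) - (starRingEnd ℂ) (AA (ee t)) - AA (ee t) + 1 := by
    have h4 := Complex.conj_mul' (AA (ee t))
    push_cast
    linear_combination h4
  rw [h3]
  module

lemma UK_mul (K : N →L[ℂ] M) (hK : (ContinuousLinearMap.adjoint K).comp K = 1) (β γ : ℂ)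
    (hβγ : β * γ = 1) :
    (1 + (β - 1) • PK K : M →L[ℂ] M) * (1 + (γ - 1) • PK K) = 1 := by
  rw [add_mul, mul_add, mul_add, one_mul, one_mul, mul_one, smul_mul_smul_comm, PK_sq K hK]
  have : (β - 1) * (γ - 1) = 1 - β - γ + 1 := by
    linear_combination hβγ
  rw [this]
  module

lemma symb_eq (K : N →L[ℂ] M) (hK : (ContinuousLinearMap.adjoint K).comp K = 1) (ξ : N) :
    ∀ᵐ t ∂leb, symb (chi K (ee t)) (aaN N (ee t)) (ddM K (ee t)) ξ = FF (ee t) • K ξ := by
  filter_upwards [ae_dd] with t ht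
  have hne : (starRingEnd ℂ) (AA (ee t)) ≠ 0 := (map_ne_zero _).2 (AA_ne ht)
  have hinv : inv (adj (ddM K (ee t))) =
      1 + (((starRingEnd ℂ) (AA (ee t)))⁻¹ - 1) • PK K := by
    have h0 : inv (adj (ddM K (ee t))) =
      Ring.inverse (ContinuousLinearMap.adjoint (ddM K (ee t))) := rfl
    rw [h0]
    unfold ddM
    rw [adj_UK]
    set α : ℂ := (starRingEnd ℂ) (AA (ee t)) with hα
    have hu : IsUnit (1 + (α - 1) • PK K : M →L[ℂ] M) :=
      ⟨⟨1 + (α - 1) • PK K, 1 + (α⁻¹ - 1) • PK K, UK_mul K hK _ _ (mul_inv_cancel₀ hne),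
        UK_mul K hK _ _ (inv_mul_cancel₀ hne)⟩, rfl⟩
    have h2 := Ring.inverse_mul_cancel _ hu
    calc Ring.inverse (1 + (α - 1) • PK K : M →L[ℂ] M)
        = Ring.inverse (1 + (α - 1) • PK K : M →L[ℂ] M) *
          ((1 + (α - 1) • PK K) * (1 + (α⁻¹ - 1) • PK K)) := by
            rw [UK_mul K hK _ _ (mul_inv_cancel₀ hne), mul_one]
      _ = 1 + (α⁻¹ - 1) • PK K := by rw [← mul_assoc, h2, one_mul]
  have hX : (adj (chi K (ee t))) = (starRingEnd ℂ) (xx (ee t)) • K := adj_chi K _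
  unfold symb aaN
  rw [hinv, hX, FF_eq ht (ee_norm t)]
  simp only [smul_apply, ContinuousLinearMap.comp_apply,
    add_apply, one_apply_eq_self, map_smul]
  have h3 : PK K (K ξ) = K ξ := by
    have := congrArg (fun T : N →L[ℂ] M => T ξ) (PK_K K hK)
    simpa using this
  rw [h3]
  module

lemma hankel_zero (K : N →L[ℂ] M) (hK : (ContinuousLinearMap.adjoint K).comp K = 1) :
    IsHankel (fun t => symb (chi K (ee t)) (aaN N (ee t)) (ddM K (ee t))) 0 := by
  intro j k ξ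
  have h1 : ∫ t, (ee t) ^ (j + k + 1) • symb (chi K (ee t)) (aaN N (ee t)) (ddM K (ee t)) ξ ∂leb =
      ∫ t, ((ee t) ^ (j + k + 1) * FF (ee t)) • K ξ ∂leb := by
    refine integral_congr_ae ?_
    filter_upwards [symb_eq K hK ξ] with t ht
    rw [ht, smul_smul]
  rw [h1, integral_smul_const, FF_fourier _ (by omega), zero_smul, smul_zero]
  rfl

lemma assoc_zero (K : N →L[ℂ] M) (hK : (ContinuousLinearMap.adjoint K).comp K = 1) :
    IsAssoc (chi K) (fun t => chi K (ee t)) (aaN N) (fun t => aaN N (ee t)) (ddM K)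
      (fun t => ddM K (ee t)) 0 := by
  have h1 : OuterPos (aaN N) (fun t => aaN N (ee t)) :=
    ⟨classB_a, bdry_a, pos_a, scalarOuter_of_det (aaN N) _ (fun z => det_smul_one (AA z))⟩
  have h2 : OuterPos (ddM K) (fun t => ddM K (ee t)) :=
    ⟨classB_d K hK, bdry_d K, pos_d K hK,
      scalarOuter_of_det (ddM K) _ (fun z => det_UK' K hK (AA z))⟩
  exact ⟨bdry_chi K, h1, h2, (fact_a K hK).and (fact_d K hK), hankel_zero K hK⟩

lemma classBSz_chi (K : N →L[ℂ] M) (hK : (ContinuousLinearMap.adjoint K).comp K = 1) :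
    ClassBSz (chi K) := by
  refine ⟨classB_chi K hK, chi_zero K, fun t => chi K (ee t), bdry_chi K, ?_, ?_⟩
  · filter_upwards [one_sub_chi K, ae_dd] with t ht ht2
    rw [ht, det_UK' K hK]
    apply pow_ne_zero
    have := AA_ne ht2
    have h2 : 0 < ‖AA (ee t)‖ ^ 2 := by
      have := norm_pos_iff.2 this
      positivity
    exact_mod_cast h2.ne'
  · have h1 : Integrable (fun t => (Module.finrank ℂ N : ℝ) * (2 * Real.log ‖AA (ee t)‖)) leb :=
      (AA_outer.1.const_mul 2).const_mul _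
    refine h1.congr ?_
    filter_upwards [one_sub_chi K] with t ht
    rw [ht, det_UK' K hK, norm_pow, Real.log_pow, Complex.norm_real,
      Real.norm_of_nonneg (by positivity), Real.log_pow]
    push_cast
    ring

lemma herg_bound' (T : N →L[ℂ] N) (x : ℝ) (hT : ‖T‖ ≤ x) (hx : x < 1) (ξ : N) :
    ‖⟪ξ, cayley T ξ⟫_ℂ‖ ≤ 2 / (1 - x) * ‖ξ‖ ^ 2 := by
  have hT1 : ‖T‖ < 1 := lt_of_le_of_lt hT hx
  have hu : IsUnit (1 - T) := ⟨Units.oneSub T hT1, rfl⟩
  have hmul := Ring.mul_inverse_cancel _ hu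
  have h0 : cayley T = (1 + T) * Ring.inverse (1 - T) := rfl
  rw [h0]
  set S : N →L[ℂ] N := Ring.inverse (1 - T) with hS
  have hSx : S ξ = ξ + T (S ξ) := by
    have := congrArg (fun U : N →L[ℂ] N => U ξ) hmul
    simp only [mul_apply_eq_comp, sub_apply, one_apply_eq_self] at this
    exact sub_eq_iff_eq_add.1 this
  have hSn : ‖S ξ‖ ≤ ‖ξ‖ / (1 - x) := by
    rw [le_div_iff₀ (by linarith)]
    have h1 : ‖S ξ‖ ≤ ‖ξ‖ + ‖T (S ξ)‖ := by
      calc ‖S ξ‖ = ‖ξ + T (S ξ)‖ := by rw [← hSx]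
        _ ≤ _ := norm_add_le _ _
    have h2 : ‖T (S ξ)‖ ≤ x * ‖S ξ‖ := by
      refine (T.le_opNorm _).trans ?_
      gcongr
    linarith
  have h3 : ‖((1 + T) * S) ξ‖ ≤ 2 * (‖ξ‖ / (1 - x)) := by
    rw [mul_apply_eq_comp, add_apply, one_apply_eq_self]
    refine (norm_add_le _ _).trans ?_
    have h2 : ‖T (S ξ)‖ ≤ 1 * ‖S ξ‖ := by
      refine (T.le_opNorm _).trans ?_
      gcongr
    linarith
  calc ‖⟪ξ, ((1 + T) * S) ξ⟫_ℂ‖ ≤ ‖ξ‖ * ‖((1 + T) * S) ξ‖ := norm_inner_le_norm _ _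
    _ ≤ ‖ξ‖ * (2 * (‖ξ‖ / (1 - x))) := by gcongr
    _ = 2 / (1 - x) * ‖ξ‖ ^ 2 := by ring

lemma classBa_chi (K : N →L[ℂ] M) (hK : (ContinuousLinearMap.adjoint K).comp K = 1) :
    ClassBa (chi K) := by
  refine ⟨classB_chi K hK, chi_zero K, ?_⟩
  intro ε hε σ hσ ξ
  obtain ⟨hfin, hsupp, hrep⟩ := hσ ξ
  have hΦ0 : ∀ x, 0 ≤ Phi x := fun x => by unfold Phi; positivity
  refine absCont (σ ξ) hsupp (fun z => 2 / (1 - ‖xx z‖) * ‖ξ‖ ^ 2) (fun x => Phi x * ‖ξ‖ ^ 2)
    ?_ ?_ ?_ ?_ ?_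
  · intro x y hx hxy
    have := Phi_anti x y hx hxy
    gcongr
  · intro x
    have := hΦ0 x
    positivity
  · intro z hz
    rw [← hrep z hz]
    refine herg_bound' _ ‖xx z‖ ?_ (xx_lt (ball_sub_dd hz)) ξ
    refine (ContinuousLinearMap.opNorm_comp_le _ _).trans ?_
    have h1 := hε.2 z hz
    have h2 : ‖chi K z‖ ≤ ‖xx z‖ := by
      unfold chi
      rw [norm_smul]
      have := Ka_norm_le K hK
      have h3 := norm_nonneg (xx z)
      nlinarith
    calc ‖chi K z‖ * ‖ε z‖ ≤ ‖xx z‖ * 1 := by gcongr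
      _ = ‖xx z‖ := mul_one _
  · intro z hz
    have := le_Phi hz
    gcongr
  · have h := rad_tendsto.mul_const (2 * ‖ξ‖ ^ 2)
    rw [zero_mul] at h
    refine h.congr (fun s => ?_)
    ring

/-- **Disproof of Q1 for all dimensions.** -/
theorem main (hN : 0 < Module.finrank ℂ N) (hNM : Module.finrank ℂ N ≤ Module.finrank ℂ M) :
    ∃ χ : ℂ → (M →L[ℂ] N), ClassBa χ ∧ ClassBSz χ ∧ ¬ Cond4 χ := by
  obtain ⟨K, hK⟩ := exists_isometry hNM
  refine ⟨chi K, classBa_chi K hK, classBSz_chi K hK, ?_⟩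
  obtain ⟨z, hz, hxz⟩ := exists_xx_ne
  intro hcond
  have hNn : Nontrivial N := Module.finrank_pos_iff.1 hN
  obtain ⟨ξ, hξ⟩ := exists_ne (0 : N)
  have h1 := hcond _ _ _ _ _ _ (assoc_zero K hK) z hz (K ξ)
  simp_rw [Pplus_zero, qplus_zero] at h1
  have hinv : Function.invFun (id : N → N) 0 = 0 :=
    Function.leftInverse_invFun Function.injective_id 0
  rw [hinv] at h1
  have h2 := tendsto_nhds_unique h1 tendsto_const_nhds
  unfold chi at h2
  rw [smul_apply, K_apply K hK] at h2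
  exact (smul_ne_zero hxz hξ) h2

end Final

end Pool.Agent.Y266.AC
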